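import Pool.Agent.Lib.MP_7c1622_gt.Defs

set_option autoImplicit false

noncomputable section

namespace Pool.Agent.MP7c1622

open Set Filter Topology ComplexConjugate
open scoped ContDiff

/-- smooth periodic maps -/
structure SP {E : Type} [NormedAddCommGroup E] [NormedSpace ℝ E] (f : ℝ → E) : Prop where
  smooth : ContDiff ℝ ∞ f
  per : ∀ u, f (u + 1) = f u

section
variable {E : Type} [NormedAddCommGroup E] [NormedSpace ℝ E]

lemma SP.deriv {f : ℝ → E} (h : SP f) : SP (deriv f) := by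
  refine ⟨?_, ?_⟩
  · exact h.smooth.iterate_deriv 1
  · intro u
    have : (fun v => f (v + 1)) = f := funext h.per
    have h2 := deriv_comp_add_const (f := f) (a := (1:ℝ)) (x := u)
    rw [this] at h2
    exact h2.symm

lemma SP.iteratedDeriv {f : ℝ → E} (h : SP f) (j : ℕ) : SP (iteratedDeriv j f) := by
  induction j with
  | zero => simpa [iteratedDeriv_zero] using h
  | succ n ih => rw [iteratedDeriv_succ]; exact ih.deriv

lemma SP.continuous {f : ℝ → E} (h : SP f) : Continuous f := h.smooth.continuous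

lemma SP.differentiable {f : ℝ → E} (h : SP f) : Differentiable ℝ f :=
  h.smooth.differentiable (by simp)

lemma SP.hasDerivAt {f : ℝ → E} (h : SP f) (u : ℝ) : HasDerivAt f (_root_.deriv f u) u :=
  (h.differentiable u).hasDerivAt

lemma bounded_of_periodic {f : ℝ → E} (hf : Continuous f) (hp : ∀ u, f (u + 1) = f u) :
    ∃ M, 0 < M ∧ ∀ u, ‖f u‖ ≤ M := by
  obtain ⟨M, hM⟩ := (isCompact_Icc (a := (0:ℝ)) (b := 1)).exists_bound_of_continuousOn
    hf.continuousOn
  refine ⟨max M 1, by positivity, fun u => ?_⟩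
  have hper : Function.Periodic f 1 := hp
  obtain ⟨v, hv, hfv⟩ := hper.exists_mem_Ico₀ (by norm_num) u
  rw [hfv]
  exact (hM v ⟨hv.1, hv.2.le⟩).trans (le_max_left _ _)

lemma pos_lower_of_periodic {f : ℝ → ℝ} (hf : Continuous f) (hp : ∀ u, f (u + 1) = f u)
    (hpos : ∀ u, 0 < f u) : ∃ m, 0 < m ∧ ∀ u, m ≤ f u := by
  obtain ⟨x, hx, hmin⟩ := (isCompact_Icc (a := (0:ℝ)) (b := 1)).exists_isMinOn
    (nonempty_Icc.2 zero_le_one) hf.continuousOn
  refine ⟨f x, hpos x, fun u => ?_⟩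
  have hper : Function.Periodic f 1 := hp
  obtain ⟨v, hv, hfv⟩ := hper.exists_mem_Ico₀ (by norm_num) u
  rw [hfv]
  exact hmin ⟨hv.1, hv.2.le⟩

end

lemma IsClosedCurve.sp {γ : ℝ → ℂ} (h : IsClosedCurve γ) : SP γ := ⟨h.smooth, h.periodic⟩

lemma IsClosedCurve.speed_pos {γ : ℝ → ℂ} (h : IsClosedCurve γ) (u : ℝ) : 0 < ‖deriv γ u‖ :=
  norm_pos_iff.2 (h.immersed u)

lemma IsClosedCurve.speed_smooth {γ : ℝ → ℂ} (h : IsClosedCurve γ) :
    SP (fun u => ‖deriv γ u‖) := by
  refine ⟨?_, fun u => by rw [h.sp.deriv.per]⟩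
  exact h.sp.deriv.smooth.norm ℝ (fun u => h.immersed u)

lemma IsClosedCurve.speed_lower {γ : ℝ → ℂ} (h : IsClosedCurve γ) :
    ∃ m, 0 < m ∧ ∀ u, m ≤ ‖deriv γ u‖ :=
  pos_lower_of_periodic h.speed_smooth.continuous h.speed_smooth.per h.speed_pos

lemma IsClosedCurve.len_pos {γ : ℝ → ℂ} (h : IsClosedCurve γ) : 0 < len γ := by
  unfold len
  apply intervalIntegral.intervalIntegral_pos_of_pos
  · exact h.speed_smooth.continuous.intervalIntegrable _ _
  · exact h.speed_pos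
  · norm_num

lemma IsClosedCurve.tangent_sp {γ : ℝ → ℂ} (h : IsClosedCurve γ) : SP (tangent γ) := by
  refine ⟨?_, ?_⟩
  · unfold tangent dS
    exact (h.speed_smooth.smooth.inv (fun u => (h.speed_pos u).ne')).smul h.sp.deriv.smooth
  · intro u
    unfold tangent dS
    rw [h.sp.deriv.per]

lemma IsClosedCurve.dS_sp {γ : ℝ → ℂ} (h : IsClosedCurve γ) {E : Type} [NormedAddCommGroup E]
    [NormedSpace ℝ E] {f : ℝ → E} (hf : SP f) : SP (dS γ f) := by
  refine ⟨?_, ?_⟩
  · unfold dS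
    exact (h.speed_smooth.smooth.inv (fun u => (h.speed_pos u).ne')).smul hf.deriv.smooth
  · intro u
    unfold dS
    rw [h.sp.deriv.per, hf.deriv.per]

lemma IsClosedCurve.norm_tangent {γ : ℝ → ℂ} (h : IsClosedCurve γ) (u : ℝ) :
    ‖tangent γ u‖ = 1 := by
  unfold tangent dS
  rw [norm_smul, norm_inv, norm_norm, inv_mul_cancel₀ (h.speed_pos u).ne']

lemma IsClosedCurve.deriv_eq {γ : ℝ → ℂ} (h : IsClosedCurve γ) (u : ℝ) :
    deriv γ u = (‖deriv γ u‖ : ℂ) * tangent γ u := by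
  unfold tangent dS
  rw [Complex.real_smul, ← mul_assoc, ← Complex.ofReal_mul, mul_inv_cancel₀ (h.speed_pos u).ne']
  simp

lemma SP.add_smul {γ w : ℝ → ℂ} (h : SP γ) (hw : SP w) (δ : ℝ) :
    SP (fun u => γ u + δ • w u) :=
  ⟨h.smooth.add (hw.smooth.const_smul δ), fun u => by simp only [h.per, hw.per]⟩

lemma iteratedDeriv_add_smul {γ w : ℝ → ℂ} (h : SP γ) (hw : SP w) (δ : ℝ) (j : ℕ) :
    iteratedDeriv j (fun u => γ u + δ • w u) =
      fun u => iteratedDeriv j γ u + δ • iteratedDeriv j w u := by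
  induction j with
  | zero => simp [iteratedDeriv_zero]
  | succ n ih =>
    rw [iteratedDeriv_succ, ih, iteratedDeriv_succ, iteratedDeriv_succ]
    funext u
    exact (((h.iteratedDeriv n).hasDerivAt u).add
      (((hw.iteratedDeriv n).hasDerivAt u).const_smul δ)).deriv

lemma deriv_add_smul {γ w : ℝ → ℂ} (h : SP γ) (hw : SP w) (δ : ℝ) (u : ℝ) :
    deriv (fun u => γ u + δ • w u) u = deriv γ u + δ • deriv w u :=
  ((h.hasDerivAt u).add ((hw.hasDerivAt u).const_smul δ)).deriv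

/-- small perturbations of a closed curve are closed curves close to it -/
lemma perturb {γ w : ℝ → ℂ} (h : IsClosedCurve γ) (hw : SP w) (k : ℕ) {ε : ℝ} (hε : 0 < ε) :
    ∃ δ₀ : ℝ, 0 < δ₀ ∧ ∀ δ : ℝ, |δ| < δ₀ →
      IsClosedCurve (fun u => γ u + δ • w u) ∧ IsClose k ε γ (fun u => γ u + δ • w u) := by
  obtain ⟨m, hm, hml⟩ := h.speed_lower
  have hb : ∀ j : ℕ, ∃ M, 0 < M ∧ ∀ u, ‖iteratedDeriv j w u‖ ≤ M := fun j =>
    bounded_of_periodic (hw.iteratedDeriv j).continuous (hw.iteratedDeriv j).per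
  choose M hM hMb using hb
  set K : ℝ := ∑ j ∈ Finset.range (k + 2), M j with hK
  have hKj : ∀ j ≤ k + 1, M j ≤ K := fun j hj =>
    Finset.single_le_sum (f := M) (fun i _ => (hM i).le) (Finset.mem_range.2 (by omega))
  have hKpos : 0 < K := (hM 0).trans_le (hKj 0 (by omega))
  refine ⟨min m ε / K, by positivity, fun δ hδ => ?_⟩
  have hδK : |δ| * K < min m ε := by rwa [lt_div_iff₀ hKpos] at hδ
  have hsm : ∀ j ≤ k + 1, ∀ u, ‖δ • iteratedDeriv j w u‖ < min m ε := by
    intro j hj u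
    rw [norm_smul, Real.norm_eq_abs]
    calc |δ| * ‖iteratedDeriv j w u‖ ≤ |δ| * K :=
          mul_le_mul_of_nonneg_left ((hMb j u).trans (hKj j hj)) (abs_nonneg _)
      _ < min m ε := hδK
  refine ⟨⟨(h.sp.add_smul hw δ).smooth, (h.sp.add_smul hw δ).per, fun u hu => ?_⟩, ?_⟩
  · rw [deriv_add_smul h.sp hw] at hu
    have h1 := hsm 1 (by omega) u
    rw [iteratedDeriv_one] at h1
    have h2 : ‖deriv γ u‖ = ‖δ • deriv w u‖ := by
      rw [eq_neg_of_add_eq_zero_left hu, norm_neg]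
    have h3 := hml u
    rw [h2] at h3
    exact absurd (h1.trans_le (min_le_left _ _)) (not_lt.2 h3)
  · intro j hj u
    rw [iteratedDeriv_add_smul h.sp hw]
    have : iteratedDeriv j γ u - (iteratedDeriv j γ u + δ • iteratedDeriv j w u) =
        -(δ • iteratedDeriv j w u) := by ring
    simp only [this, norm_neg]
    exact (hsm j (by omega) u).trans_le (min_le_right _ _)

end Pool.Agent.MP7c1622
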