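import Pool.Agent.Lib.MP_7c1622_gt.Variation

set_option autoImplicit false

noncomputable section

namespace Pool.Agent.MP7c1622

open Set Filter Topology ComplexConjugate
open scoped ContDiff

/-- the arc length function -/
def arc (γ : ℝ → ℂ) (u : ℝ) : ℝ := ∫ v in (0:ℝ)..u, ‖deriv γ v‖

lemma IsClosedCurve.arc_hasDerivAt {γ : ℝ → ℂ} (h : IsClosedCurve γ) (u : ℝ) :
    HasDerivAt (arc γ) ‖deriv γ u‖ u :=
  intervalIntegral.integral_hasDerivAt_right
    (h.speed_smooth.continuous.intervalIntegrable _ _)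
    (h.speed_smooth.continuous.stronglyMeasurableAtFilter _ _)
    h.speed_smooth.continuous.continuousAt

lemma IsClosedCurve.arc_add_one {γ : ℝ → ℂ} (h : IsClosedCurve γ) (u : ℝ) :
    arc γ (u + 1) = arc γ u + len γ := by
  unfold arc len
  have hp : Function.Periodic (fun v => ‖deriv γ v‖) 1 := h.speed_smooth.per
  have h1 := hp.intervalIntegral_add_eq u 0
  rw [zero_add] at h1
  rw [← h1]
  exact (intervalIntegral.integral_add_adjacent_intervals
    (h.speed_smooth.continuous.intervalIntegrable _ _)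
    (h.speed_smooth.continuous.intervalIntegrable _ _)).symm

lemma IsClosedCurve.arc_zero (γ : ℝ → ℂ) : arc γ 0 = 0 := by
  unfold arc; simp

lemma IsClosedCurve.arc_smooth {γ : ℝ → ℂ} (h : IsClosedCurve γ) : ContDiff ℝ ∞ (arc γ) := by
  rw [contDiff_infty_iff_deriv]
  refine ⟨fun u => (h.arc_hasDerivAt u).differentiableAt, ?_⟩
  have : deriv (arc γ) = fun u => ‖deriv γ u‖ := funext fun u => (h.arc_hasDerivAt u).deriv
  rw [this]
  exact h.speed_smooth.smooth

lemma IsClosedCurve.arc_strictMono {γ : ℝ → ℂ} (h : IsClosedCurve γ) : StrictMono (arc γ) := by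
  apply strictMono_of_deriv_pos
  intro u
  rw [(h.arc_hasDerivAt u).deriv]
  exact h.speed_pos u

/-- data of a multiply covered circle -/
structure CircData (γ : ℝ → ℂ) (κ : ℝ) (c : ℂ) (m : ℤ) : Prop where
  κ_ne : κ ≠ 0
  m_ne : m ≠ 0
  pos : ∀ u, γ u = c + (Complex.I * κ)⁻¹ * tangent γ u
  tan : ∀ u, tangent γ u = tangent γ 0 * Complex.exp (Complex.I * (κ * arc γ u : ℝ))
  tot : κ * len γ = 2 * Real.pi * m
  area_eq : 2 * area γ * κ = len γ

lemma circData {γ : ℝ → ℂ} (h : IsClosedCurve γ) {k : ℕ} {ε : ℝ}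
    (hε : 0 < ε) (hmax : LocMax k ε γ) : ∃ κ c m, CircData γ κ c m := by
  have ha := area_ne_zero h hε hmax
  have hL := h.len_pos
  have hel := euler_lagrange h hε hmax
  set κ : ℝ := len γ / (2 * area γ) with hκ
  have hκ0 : κ ≠ 0 := by rw [hκ]; positivity
  have hel2 : ∀ u, deriv (tangent γ) u = Complex.I * κ * deriv γ u := by
    intro u
    have h1 := hel u
    have h2 : ((2 * area γ : ℝ) : ℂ) ≠ 0 := by
      rw [Complex.ofReal_ne_zero]; positivity
    rw [hκ, Complex.ofReal_div]
    field_simp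
    rw [mul_comm, h1]; ring
  have hIκ : Complex.I * (κ : ℂ) ≠ 0 :=
    mul_ne_zero Complex.I_ne_zero (Complex.ofReal_ne_zero.2 hκ0)
  -- constant center
  have hconst : ∀ u, γ u - (Complex.I * κ)⁻¹ * tangent γ u =
      γ 0 - (Complex.I * κ)⁻¹ * tangent γ 0 := by
    intro u
    have hd : ∀ v, HasDerivAt (fun v => γ v - (Complex.I * κ)⁻¹ * tangent γ v) 0 v := by
      intro v
      have := (h.sp.hasDerivAt v).sub ((h.tangent_sp.hasDerivAt v).const_mul (Complex.I * κ)⁻¹)
      rw [hel2, ← mul_assoc, inv_mul_cancel₀ hIκ, one_mul, sub_self] at this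
      exact this
    exact is_const_of_deriv_eq_zero (fun v => (hd v).differentiableAt) (fun v => (hd v).deriv) u 0
  -- tangent angle
  have htan : ∀ u, tangent γ u = tangent γ 0 * Complex.exp (Complex.I * (κ * arc γ u : ℝ)) := by
    intro u
    have hd : ∀ v, HasDerivAt (fun v => tangent γ v *
        Complex.exp (-(Complex.I * (κ * arc γ v : ℝ)))) 0 v := by
      intro v
      have h1 : HasDerivAt (fun v => ((κ * arc γ v : ℝ) : ℂ)) ((κ * ‖deriv γ v‖ : ℝ) : ℂ) v :=
        ((h.arc_hasDerivAt v).const_mul κ).ofReal_comp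
      have h2 : HasDerivAt (fun v => Complex.exp (-(Complex.I * (κ * arc γ v : ℝ))))
          (Complex.exp (-(Complex.I * (κ * arc γ v : ℝ))) *
            -(Complex.I * ((κ * ‖deriv γ v‖ : ℝ) : ℂ))) v :=
        ((h1.const_mul Complex.I).neg).cexp
      refine ((h.tangent_sp.hasDerivAt v).mul h2).congr_deriv ?_
      rw [hel2]
      have h4 := h.deriv_eq v
      set n := ‖deriv γ v‖ with hn
      rw [h4]
      push_cast
      ring
    have := is_const_of_deriv_eq_zero (fun v => (hd v).differentiableAt)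
      (fun v => (hd v).deriv) u 0
    simp only [IsClosedCurve.arc_zero, mul_zero, Complex.ofReal_zero, neg_zero, Complex.exp_zero,
      mul_one] at this
    rw [← this, mul_assoc, ← Complex.exp_add]
    simp
  have h1 : Complex.exp (Complex.I * (κ * len γ : ℝ)) = 1 := by
    have e1 := htan 1
    have e2 : tangent γ 1 = tangent γ 0 := by
      have := h.tangent_sp.per 0
      rwa [zero_add] at this
    have e3 : arc γ 1 = len γ := rfl
    rw [e2, e3] at e1
    have e4 : tangent γ 0 ≠ 0 := by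
      have := h.norm_tangent 0
      intro h0
      rw [h0, norm_zero] at this
      norm_num at this
    exact (mul_eq_left₀ e4).1 e1.symm
  obtain ⟨m, hm⟩ := Complex.exp_eq_one_iff.1 h1
  have hm' : κ * len γ = 2 * Real.pi * m := by
    have e1 : Complex.I * ((κ * len γ : ℝ) : ℂ) = Complex.I * ((2 * Real.pi * m : ℝ) : ℂ) := by
      rw [hm]; push_cast; ring
    exact Complex.ofReal_injective (mul_left_cancel₀ Complex.I_ne_zero e1)
  refine ⟨κ, γ 0 - (Complex.I * κ)⁻¹ * tangent γ 0, m, hκ0, ?_, ?_, htan, hm', ?_⟩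
  · rintro rfl
    rw [Int.cast_zero, mul_zero] at hm'
    rcases mul_eq_zero.1 hm' with h2 | h2
    · exact hκ0 h2
    · exact hL.ne' h2
  · intro u
    rw [← hconst u]; ring
  · rw [hκ]; field_simp

lemma CircData.theta_one {γ : ℝ → ℂ} {κ : ℝ} {c : ℂ} {m : ℤ} (_hd : CircData γ κ c m) :
    arc γ 1 = len γ := rfl

/-- the second variation argument: a circle covered at least twice is not a local maximum -/
lemma CircData.abs_lt_two {γ : ℝ → ℂ} (h : IsClosedCurve γ) {k : ℕ} {ε : ℝ}
    (hε : 0 < ε) (hmax : LocMax k ε γ) {κ : ℝ} {c : ℂ} {m : ℤ} (hd : CircData γ κ c m) :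
    |m| < 2 := by
  by_contra hm2
  push Not at hm2
  have hκ := hd.κ_ne
  have hL := h.len_pos
  have hmR : (m : ℝ) ≠ 0 := Int.cast_ne_zero.2 hd.m_ne
  have hm4 : (4:ℝ) ≤ (m:ℝ) ^ 2 := by
    have h1 : (2:ℝ) ≤ |(m:ℝ)| := by exact_mod_cast hm2
    have h2 : (m:ℝ) ^ 2 = |(m:ℝ)| ^ 2 := (sq_abs _).symm
    rw [h2]; nlinarith
  have hIκ : Complex.I * (κ : ℂ) ≠ 0 :=
    mul_ne_zero Complex.I_ne_zero (Complex.ofReal_ne_zero.2 hκ)
  set θ : ℝ → ℝ := fun u => κ * arc γ u / m with hθ
  have hθd : ∀ u, HasDerivAt θ (κ * ‖deriv γ u‖ / m) u := fun u =>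
    ((h.arc_hasDerivAt u).const_mul κ).div_const _
  have hθs : ContDiff ℝ ∞ θ := (contDiff_const.mul h.arc_smooth).div_const _
  have hθp : ∀ u, θ (u + 1) = θ u + 2 * Real.pi := by
    intro u
    simp only [hθ]
    rw [h.arc_add_one, mul_add, hd.tot]
    field_simp
  have hθ0 : θ 0 = 0 := by simp [hθ, IsClosedCurve.arc_zero]
  have hθ1 : θ 1 = 2 * Real.pi := by
    have := hθp 0
    rw [zero_add, hθ0, zero_add] at this
    exact this
  set f : ℝ → ℝ := fun u => Real.cos (θ u) with hf
  set g : ℝ → ℝ := fun u => Real.sin (θ u) with hg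
  have hfs : SP f := ⟨Real.contDiff_cos.comp hθs, fun u => by simp [hf, hθp, Real.cos_add_two_pi]⟩
  have hgs : SP g := ⟨Real.contDiff_sin.comp hθs, fun u => by simp [hg, hθp, Real.sin_add_two_pi]⟩
  have hfd : ∀ u, HasDerivAt f (-g u * (κ * ‖deriv γ u‖ / m)) u := fun u =>
    (hθd u).cos
  have hgd : ∀ u, HasDerivAt g (f u * (κ * ‖deriv γ u‖ / m)) u := fun u =>
    (hθd u).sin
  have hfg : ∀ u, f u ^ 2 + g u ^ 2 = 1 := fun u => Real.cos_sq_add_sin_sq _
  have hf1 : ∀ u, |f u| ≤ 1 := fun u => Real.abs_cos_le_one _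
  set w : ℝ → ℂ := fun u => f u • (γ u - c) with hw
  have hws : SP w := ⟨hfs.smooth.smul (h.smooth.sub contDiff_const),
    fun u => by simp only [hw, hfs.per, h.periodic]⟩
  have hwd : ∀ u, deriv w u = f u • deriv γ u +
      (-g u * (κ * ‖deriv γ u‖ / m)) • (γ u - c) := by
    intro u
    exact ((hfd u).smul ((h.sp.hasDerivAt u).sub_const c)).deriv
  have hγc : ∀ u, γ u - c = (Complex.I * κ)⁻¹ * tangent γ u := by
    intro u
    have h1 := hd.pos u
    calc γ u - c = (c + (Complex.I * κ)⁻¹ * tangent γ u) - c := by rw [← h1]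
      _ = _ := by ring
  -- integrals
  set v : ℝ → ℝ := fun u => ‖deriv γ u‖ with hv
  have hvc : Continuous v := h.speed_smooth.continuous
  have hfc : Continuous f := hfs.continuous
  have hgc : Continuous g := hgs.continuous
  have I0 : ∫ u in (0:ℝ)..1, v u = len γ := rfl
  have I1 : ∫ u in (0:ℝ)..1, v u * f u = 0 := by
    have h1 := integral_deriv_periodic hgs
    have h2 : deriv g = fun u => (κ / m) * (v u * f u) := by
      funext u
      rw [(hgd u).deriv]
      ring
    rw [h2, intervalIntegral.integral_const_mul] at h1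
    rcases mul_eq_zero.1 h1 with h3 | h3
    · exact absurd h3 (div_ne_zero hκ hmR)
    · exact h3
  have I2 : ∫ u in (0:ℝ)..1, v u * g u ^ 2 = len γ / 2 := by
    have h1 : SP (fun u => f u * g u) :=
      ⟨hfs.smooth.mul hgs.smooth, fun u => by simp only [hfs.per, hgs.per]⟩
    have h2 := integral_deriv_periodic h1
    have h3 : deriv (fun u => f u * g u) = fun u => (κ / m) * (v u - 2 * (v u * g u ^ 2)) := by
      funext u
      have hprod : HasDerivAt (fun u => f u * g u) (-g u * (κ * ‖deriv γ u‖ / m) * g u +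
          f u * (f u * (κ * ‖deriv γ u‖ / m))) u := (hfd u).mul (hgd u)
      rw [hprod.deriv]
      have := hfg u
      have e : f u ^ 2 = 1 - g u ^ 2 := by linarith
      calc -g u * (κ * ‖deriv γ u‖ / m) * g u + f u * (f u * (κ * ‖deriv γ u‖ / m))
          = (κ / m) * (v u * (f u ^ 2 - g u ^ 2)) := by simp only [hv]; ring
        _ = _ := by rw [e]; ring
    rw [h3, intervalIntegral.integral_const_mul] at h2
    rcases mul_eq_zero.1 h2 with h4 | h4
    · exact absurd h4 (div_ne_zero hκ hmR)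
    · rw [intervalIntegral.integral_sub (hvc.intervalIntegrable _ _)
        ((by fun_prop : Continuous fun u => 2 * (v u * g u ^ 2)).intervalIntegrable _ _),
        intervalIntegral.integral_const_mul, I0] at h4
      linarith
  have I3 : ∫ u in (0:ℝ)..1, v u * f u ^ 2 = len γ / 2 := by
    have h1 : ∀ u, v u * f u ^ 2 = v u - v u * g u ^ 2 := by
      intro u
      have := hfg u
      have e : f u ^ 2 = 1 - g u ^ 2 := by linarith
      rw [e]; ring
    simp_rw [h1]
    rw [intervalIntegral.integral_sub (hvc.intervalIntegrable _ _)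
        ((by fun_prop : Continuous fun u => v u * g u ^ 2).intervalIntegrable _ _), I0, I2]
    ring
  obtain ⟨δ₀, hδ₀, hp⟩ := perturb h hws k hε
  set δ : ℝ := min (δ₀ / 2) (1 / 2) with hδ
  have hδ0 : 0 < δ := by rw [hδ]; positivity
  have hδ1 : δ ≤ 1 / 2 := min_le_right _ _
  have hδ2 : |δ| < δ₀ := by
    rw [abs_of_pos hδ0]
    have := min_le_left (δ₀ / 2) (1 / 2)
    rw [← hδ] at this
    linarith
  obtain ⟨hη, hηc⟩ := hp δ hδ2
  have hcmp := hmax _ hη hηc
  set η : ℝ → ℂ := fun u => γ u + δ • w u with hηdef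
  have hηd : ∀ u, deriv η u = tangent γ u * (v u * (1 + δ * f u) +
      δ * (-g u * (κ * v u / m)) * (Complex.I * κ)⁻¹) := by
    intro u
    rw [hηdef, deriv_add_smul h.sp hws, hwd, hγc]
    have h4 := h.deriv_eq u
    simp only [hv]
    set n := ‖deriv γ u‖ with hn
    rw [h4]
    simp only [Complex.real_smul]
    push_cast
    ring
  have hnormηd : ∀ u, ‖deriv η u‖ ^ 2 = v u ^ 2 * ((1 + δ * f u) ^ 2 + δ ^ 2 * g u ^ 2 / m ^ 2) := by
    intro u
    rw [hηd, norm_mul, h.norm_tangent, one_mul]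
    have e1 : (v u * (1 + δ * f u) + δ * (-g u * (κ * v u / m)) * (Complex.I * κ)⁻¹ : ℂ) =
        ((v u * (1 + δ * f u) : ℝ) : ℂ) + ((δ * g u * v u / m : ℝ) : ℂ) * Complex.I := by
      push_cast
      have hκC : (κ : ℂ) ≠ 0 := Complex.ofReal_ne_zero.2 hκ
      have hmC : ((m : ℝ) : ℂ) ≠ 0 := Complex.ofReal_ne_zero.2 hmR
      have hmC' : (m : ℂ) ≠ 0 := by exact_mod_cast hmC
      rw [mul_inv, Complex.inv_I]
      field_simp
    rw [e1, ← Complex.normSq_eq_norm_sq, Complex.normSq_add_mul_I]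
    field_simp
  have hlenη : len η ≤ len γ * (1 + δ ^ 2 / (4 * m ^ 2 * (1 - δ))) := by
    have e1 : len γ * (1 + δ ^ 2 / (4 * m ^ 2 * (1 - δ))) =
        ∫ u in (0:ℝ)..1, (v u + δ * (v u * f u)) +
          (δ ^ 2 / (2 * m ^ 2 * (1 - δ))) * (v u * g u ^ 2) := by
      rw [intervalIntegral.integral_add
        ((by fun_prop : Continuous fun u => v u + δ * (v u * f u)).intervalIntegrable _ _)
        ((by fun_prop : Continuous fun u => (δ ^ 2 / (2 * m ^ 2 * (1 - δ))) *
          (v u * g u ^ 2)).intervalIntegrable _ _),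
        intervalIntegral.integral_add (hvc.intervalIntegrable _ _)
        ((by fun_prop : Continuous fun u => δ * (v u * f u)).intervalIntegrable _ _),
        intervalIntegral.integral_const_mul, intervalIntegral.integral_const_mul, I0, I1, I2]
      have : (1 - δ) ≠ 0 := by linarith
      field_simp
      ring
    rw [e1]
    unfold len
    apply intervalIntegral.integral_mono_on (by norm_num)
    · exact hη.speed_smooth.continuous.intervalIntegrable _ _
    · exact (by fun_prop : Continuous fun u => (v u + δ * (v u * f u)) +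
          (δ ^ 2 / (2 * m ^ 2 * (1 - δ))) * (v u * g u ^ 2)).intervalIntegrable _ _
    · intro u _
      have hvu : 0 ≤ v u := norm_nonneg _
      have hfu := abs_le.1 (hf1 u)
      have h1δ : 0 < 1 - δ := by linarith
      have hge : 1 - δ ≤ 1 + δ * f u := by nlinarith
      have hm2' : 0 < (m:ℝ) ^ 2 := by positivity
      set q := δ ^ 2 * g u ^ 2 / (2 * m ^ 2 * (1 - δ)) with hq
      have hq0 : 0 ≤ q := by positivity
      have e2 : (v u + δ * (v u * f u)) + (δ ^ 2 / (2 * m ^ 2 * (1 - δ))) * (v u * g u ^ 2) =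
          v u * ((1 + δ * f u) + q) := by rw [hq]; ring
      rw [e2]
      apply le_of_sq_le_sq _ (by
        apply mul_nonneg hvu
        linarith)
      rw [hnormηd, mul_pow]
      apply mul_le_mul_of_nonneg_left _ (sq_nonneg _)
      have e3 : δ ^ 2 * g u ^ 2 / m ^ 2 = 2 * (1 - δ) * q := by
        rw [hq]; field_simp
      rw [e3]
      nlinarith
  have hareaη : area η = area γ * (1 + δ ^ 2 / 2) := by
    have e0 : ∀ u, (conj (η u) * deriv η u).im =
        κ⁻¹ * (v u + (2 * δ) * (v u * f u) + δ ^ 2 * (v u * f u ^ 2)) +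
          (conj c * deriv η u).im := by
      intro u
      have e1 : η u = c + (1 + δ * f u) * ((Complex.I * κ)⁻¹ * tangent γ u) := by
        have := hγc u
        calc η u = γ u + δ • (f u • (γ u - c)) := rfl
          _ = c + (1 + δ * f u) * (γ u - c) := by
            simp only [Complex.real_smul]; ring
          _ = _ := by rw [this]
      have e2 : conj (tangent γ u) * tangent γ u = 1 := by
        have h3 : conj (tangent γ u) * tangent γ u = (Complex.normSq (tangent γ u) : ℂ) := by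
          rw [← Complex.mul_conj]; ring
        rw [h3, Complex.normSq_eq_norm_sq, h.norm_tangent]
        norm_num
      rw [e1, map_add, add_mul, Complex.add_im, add_comm]
      congr 1
      rw [hηd, map_mul, map_mul, map_inv₀, map_mul, Complex.conj_I, Complex.conj_ofReal, map_add,
        map_one, map_mul, Complex.conj_ofReal, Complex.conj_ofReal]
      have e3 : (1 + (δ:ℂ) * f u) * ((-Complex.I * κ)⁻¹ * conj (tangent γ u)) *
          (tangent γ u * (v u * (1 + δ * f u) + δ * (-g u * (κ * v u / m)) * (Complex.I * κ)⁻¹)) =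
          (conj (tangent γ u) * tangent γ u) * ((1 + (δ:ℂ) * f u) * (-Complex.I * κ)⁻¹ *
            (v u * (1 + δ * f u) + δ * (-g u * (κ * v u / m)) * (Complex.I * κ)⁻¹)) := by ring
      rw [e3, e2, one_mul]
      have hκC : (κ : ℂ) ≠ 0 := Complex.ofReal_ne_zero.2 hκ
      have e4 : (1 + (δ:ℂ) * f u) * (-Complex.I * κ)⁻¹ *
            (v u * (1 + δ * f u) + δ * (-g u * (κ * v u / m)) * (Complex.I * κ)⁻¹) =
          ((κ⁻¹ * (v u * (1 + δ * f u) ^ 2) : ℝ) : ℂ) * Complex.I +
            (((1 + δ * f u) * κ⁻¹ * (δ * (-g u * (κ * v u / m)) * κ⁻¹) : ℝ) : ℂ) := by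
        rw [mul_inv, mul_inv, inv_neg, Complex.inv_I]
        push_cast
        have hI : Complex.I * Complex.I = -1 := Complex.I_mul_I
        linear_combination (-(1 + (δ:ℂ) * f u) * (κ:ℂ)⁻¹ * (δ * (-g u * (κ * v u / m)) *
          (κ:ℂ)⁻¹)) * hI
      rw [e4, Complex.add_im, Complex.ofReal_im, Complex.im_ofReal_mul, Complex.I_im]
      ring
    have e5 : ∫ u in (0:ℝ)..1, (conj c * deriv η u).im = 0 := by
      have hcs : SP (fun _ : ℝ => c) := ⟨contDiff_const, fun _ => rfl⟩
      have := parts_im hcs hη.sp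
      rw [this]
      simp
    have e6 : area γ = len γ / (2 * κ) := by
      have := hd.area_eq
      field_simp
      linarith
    have hηdc : Continuous (fun u => (conj c * deriv η u).im) := by
      have hcs : SP (fun _ : ℝ => c) := ⟨contDiff_const, fun _ => rfl⟩
      exact (hcs.conj_mul_im hη.sp.deriv).continuous
    have e7 : area η = (1 / 2) * ∫ u in (0:ℝ)..1, (conj (η u) * deriv η u).im := rfl
    rw [e7]
    simp_rw [e0]
    rw [intervalIntegral.integral_add
      ((by fun_prop : Continuous fun u => κ⁻¹ * (v u + (2 * δ) * (v u * f u) +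
        δ ^ 2 * (v u * f u ^ 2))).intervalIntegrable _ _) (hηdc.intervalIntegrable _ _), e5,
      intervalIntegral.integral_const_mul,
      intervalIntegral.integral_add
        ((by fun_prop : Continuous fun u => v u + (2 * δ) * (v u * f u)).intervalIntegrable _ _)
        ((by fun_prop : Continuous fun u => δ ^ 2 * (v u * f u ^ 2)).intervalIntegrable _ _),
      intervalIntegral.integral_add (hvc.intervalIntegrable _ _)
        ((by fun_prop : Continuous fun u => (2 * δ) * (v u * f u)).intervalIntegrable _ _),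
      intervalIntegral.integral_const_mul, intervalIntegral.integral_const_mul, I0, I1, I3, e6]
    field_simp
    ring
  have ha0 : area γ ≠ 0 := area_ne_zero h hε hmax
  have hlη : 0 < len η := hη.len_pos
  have hs1 : len η ^ 2 ≤ (len γ * (1 + δ ^ 2 / (4 * m ^ 2 * (1 - δ)))) ^ 2 :=
    pow_le_pow_left₀ hlη.le hlenη 2
  have hs2 : |area γ| * len γ ^ 2 * (1 + δ ^ 2 / 2) ≤
      |area γ| * len γ ^ 2 * (1 + δ ^ 2 / (4 * m ^ 2 * (1 - δ))) ^ 2 := by
    have h1 : |area η| = |area γ| * (1 + δ ^ 2 / 2) := by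
      rw [hareaη, abs_mul, abs_of_pos (by positivity : (0:ℝ) < 1 + δ ^ 2 / 2)]
    rw [h1] at hcmp
    have h2 := mul_le_mul_of_nonneg_left hs1 (abs_nonneg (area γ))
    calc |area γ| * len γ ^ 2 * (1 + δ ^ 2 / 2) = |area γ| * (1 + δ ^ 2 / 2) * len γ ^ 2 := by ring
      _ ≤ |area γ| * len η ^ 2 := hcmp
      _ ≤ _ := h2
      _ = _ := by ring
  have hs3 : 1 + δ ^ 2 / 2 ≤ (1 + δ ^ 2 / (4 * m ^ 2 * (1 - δ))) ^ 2 :=
    le_of_mul_le_mul_left hs2 (by positivity)
  have hs4 : δ ^ 2 / (4 * m ^ 2 * (1 - δ)) ≤ δ ^ 2 / 8 := by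
    apply div_le_div_of_nonneg_left (by positivity) (by norm_num)
    calc (8:ℝ) = 16 * (1 / 2) := by norm_num
      _ ≤ (4 * m ^ 2) * (1 - δ) := by
        apply mul_le_mul _ _ (by norm_num) (by positivity)
        · linarith
        · linarith
  have hs5 : 0 ≤ δ ^ 2 / (4 * m ^ 2 * (1 - δ)) := by
    have : 0 < 1 - δ := by linarith
    positivity
  have hs6 : (1 + δ ^ 2 / (4 * m ^ 2 * (1 - δ))) ^ 2 ≤ (1 + δ ^ 2 / 8) ^ 2 :=
    pow_le_pow_left₀ (by linarith) (by linarith) 2
  have hδsq : 0 < δ ^ 2 := by positivity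
  have hδsq1 : δ ^ 2 * δ ^ 2 ≤ δ ^ 2 * 1 := by
    apply mul_le_mul_of_nonneg_left _ hδsq.le
    nlinarith [hδ0, hδ1]
  have hs7 : (1 + δ ^ 2 / 8) ^ 2 = 1 + δ ^ 2 / 4 + δ ^ 2 * δ ^ 2 / 64 := by ring
  have hs8 := hs3.trans hs6
  rw [hs7] at hs8
  linarith

end Pool.Agent.MP7c1622
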