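import Pool.Agent.Lib.MP_7c1622_gt.Circle

set_option autoImplicit false

noncomputable section

namespace Pool.Agent.MP7c1622

open Set Filter Topology ComplexConjugate
open scoped ContDiff

lemma CircData.onceCovered {γ : ℝ → ℂ} (h : IsClosedCurve γ) {κ : ℝ} {c : ℂ} {m : ℤ}
    (hd : CircData γ κ c m) (hm : |m| < 2) : IsOnceCoveredCircle γ := by
  have hκ := hd.κ_ne
  have hL := h.len_pos
  have hm1 : |(m:ℝ)| = 1 := by
    have h1 : |m| = 1 := by
      have := abs_pos.2 hd.m_ne
      omega
    exact_mod_cast h1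
  have hIκ : Complex.I * (κ : ℂ) ≠ 0 :=
    mul_ne_zero Complex.I_ne_zero (Complex.ofReal_ne_zero.2 hκ)
  have htot : |κ| * len γ = 2 * Real.pi := by
    have h1 := congrArg abs hd.tot
    rw [abs_mul, abs_of_pos hL, abs_mul, hm1, abs_of_pos (by positivity : 0 < 2 * Real.pi),
      mul_one] at h1
    exact h1
  have hτ0 : tangent γ 0 ≠ 0 := by
    intro h0
    have := h.norm_tangent 0
    rw [h0, norm_zero] at this
    norm_num at this
  have hγc : ∀ u, γ u - c = (Complex.I * κ)⁻¹ * tangent γ u := by
    intro u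
    have h1 := hd.pos u
    calc γ u - c = (c + (Complex.I * κ)⁻¹ * tangent γ u) - c := by rw [← h1]
      _ = _ := by ring
  have hnormI : ‖(Complex.I * (κ:ℂ))⁻¹‖ = |κ|⁻¹ := by
    rw [norm_inv, norm_mul, Complex.norm_I, one_mul, Complex.norm_real, Real.norm_eq_abs]
  refine ⟨c, |κ|⁻¹, by positivity, ?_, ?_⟩
  · apply Subset.antisymm
    · rintro _ ⟨u, rfl⟩
      rw [Metric.mem_sphere, dist_eq_norm, hγc, norm_mul, h.norm_tangent, mul_one, hnormI]
    · intro z hz
      rw [Metric.mem_sphere, dist_eq_norm] at hz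
      set q : ℂ := (z - c) / ((Complex.I * κ)⁻¹ * tangent γ 0) with hq
      have hq1 : ‖q‖ = 1 := by
        rw [hq, norm_div, hz, norm_mul, h.norm_tangent, mul_one, hnormI, div_self]
        positivity
      have hqe : Complex.exp (Complex.arg q * Complex.I) = q := by
        have := Complex.norm_mul_exp_arg_mul_I q
        rwa [hq1, Complex.ofReal_one, one_mul] at this
      set α := Complex.arg q
      set β := toIcoMod hL 0 (α / κ) with hβ
      have hβm : β ∈ Ico 0 (len γ) := by
        have := toIcoMod_mem_Ico hL 0 (α / κ)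
        rwa [zero_add] at this
      have hivt := intermediate_value_Icc (f := arc γ) (zero_le_one' ℝ)
        h.arc_smooth.continuous.continuousOn
      have harc1 : arc γ 1 = len γ := rfl
      rw [IsClosedCurve.arc_zero, harc1] at hivt
      obtain ⟨u, _, hu⟩ := hivt ⟨hβm.1, hβm.2.le⟩
      refine ⟨u, ?_⟩
      have h1 : κ * β = α - 2 * Real.pi * (toIcoDiv hL 0 (α / κ) * m : ℤ) := by
        have e1 := self_sub_toIcoDiv_zsmul hL 0 (α / κ)
        rw [← hβ, zsmul_eq_mul] at e1
        rw [← e1, mul_sub, mul_div_cancel₀ _ hκ]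
        have e2 := hd.tot
        push_cast
        calc α - κ * ((toIcoDiv hL 0 (α / κ) : ℝ) * len γ)
            = α - (toIcoDiv hL 0 (α / κ) : ℝ) * (κ * len γ) := by ring
          _ = _ := by rw [e2]; ring
      have h2 : Complex.exp (Complex.I * (κ * arc γ u : ℝ)) = q := by
        rw [hu, h1, ← hqe]
        rw [Complex.exp_eq_exp_iff_exists_int]
        refine ⟨-(toIcoDiv hL 0 (α / κ) * m), ?_⟩
        push_cast
        ring
      have h3 : z - c = ((Complex.I * κ)⁻¹ * tangent γ 0) * q := by
        rw [hq, mul_div_cancel₀]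
        exact mul_ne_zero (inv_ne_zero hIκ) hτ0
      have h4 : γ u = c + (Complex.I * κ)⁻¹ * tangent γ u := hd.pos u
      rw [hd.tan u, h2] at h4
      rw [h4]
      calc c + (Complex.I * κ)⁻¹ * (tangent γ 0 * q)
          = c + ((Complex.I * κ)⁻¹ * tangent γ 0) * q := by ring
        _ = c + (z - c) := by rw [h3]
        _ = z := by ring
  · intro u hu v hv huv
    have h1 : tangent γ u = tangent γ v := by
      have e1 := hγc u
      have e2 := hγc v
      rw [huv, e2] at e1
      exact (mul_left_cancel₀ (inv_ne_zero hIκ) e1).symm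
    rw [hd.tan u, hd.tan v] at h1
    have h2 := mul_left_cancel₀ hτ0 h1
    rw [Complex.exp_eq_exp_iff_exists_int] at h2
    obtain ⟨n, hn⟩ := h2
    have h3 : κ * arc γ u = κ * arc γ v + n * (2 * Real.pi) := by
      have e1 : Complex.I * ((κ * arc γ u : ℝ) : ℂ) =
          Complex.I * ((κ * arc γ v + n * (2 * Real.pi) : ℝ) : ℂ) := by
        rw [hn]; push_cast; ring
      exact Complex.ofReal_injective (mul_left_cancel₀ Complex.I_ne_zero e1)
    have hmono := h.arc_strictMono
    have harc0 : arc γ 0 = 0 := IsClosedCurve.arc_zero γ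
    have harc1 : arc γ 1 = len γ := rfl
    have hu0 : 0 ≤ arc γ u := by rw [← harc0]; exact hmono.monotone hu.1
    have hv0 : 0 ≤ arc γ v := by rw [← harc0]; exact hmono.monotone hv.1
    have hu1 : arc γ u < len γ := by rw [← harc1]; exact hmono hu.2
    have hv1 : arc γ v < len γ := by rw [← harc1]; exact hmono hv.2
    have h4 : |arc γ u - arc γ v| < len γ := by
      rw [abs_lt]; constructor <;> linarith
    have h5 : |κ| * |arc γ u - arc γ v| = |(n:ℝ)| * (2 * Real.pi) := by
      rw [← abs_mul, mul_sub, h3, add_sub_cancel_left, abs_mul,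
        abs_of_pos (by positivity : 0 < 2 * Real.pi)]
    have h6 : |(n:ℝ)| * (2 * Real.pi) < 1 * (2 * Real.pi) := by
      rw [← h5, one_mul, ← htot]
      exact mul_lt_mul_of_pos_left h4 (by positivity)
    have h7 : |(n:ℝ)| < 1 := lt_of_mul_lt_mul_right h6 (by positivity)
    have h8 : n = 0 := by
      have : |n| < 1 := by exact_mod_cast h7
      exact Int.abs_lt_one_iff.1 this
    rw [h8, Int.cast_zero, zero_mul, add_zero] at h3
    exact hmono.injective (mul_left_cancel₀ hκ h3)

/-- A closed curve which is a local maximum of the isoperimetric quotient is a once covered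
circle. -/
theorem onceCovered_of_locMax {γ : ℝ → ℂ} (h : IsClosedCurve γ) {k : ℕ} {ε : ℝ}
    (hε : 0 < ε) (hmax : LocMax k ε γ) : IsOnceCoveredCircle γ := by
  obtain ⟨κ, c, m, hd⟩ := circData h hε hmax
  exact hd.onceCovered h (hd.abs_lt_two h hε hmax)

end Pool.Agent.MP7c1622
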