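import Mathlib

/-!
Definitions for the curve diffusion flow of closed plane curves.

The plane is the complex plane `ℂ`, the circle is `ℝ / ℤ`, and a map on the circle is
written as a 1-periodic map on `ℝ`.
-/

set_option autoImplicit false

noncomputable section

namespace Pool.Agent.MP7c1622

open Set Filter Topology ComplexConjugate
open scoped ContDiff

/-- A smooth closed immersed plane curve, written as a 1-periodic map `ℝ → ℂ`. -/
structure IsClosedCurve (γ : ℝ → ℂ) : Prop where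
  smooth : ContDiff ℝ ∞ γ
  periodic : ∀ u, γ (u + 1) = γ u
  immersed : ∀ u, deriv γ u ≠ 0

/-- The arc length derivative `∂_s f = f' / |γ'|` along the curve `γ`. -/
def dS {E : Type} [NormedAddCommGroup E] [NormedSpace ℝ E] (γ : ℝ → ℂ) (f : ℝ → E) (u : ℝ) : E :=
  ‖deriv γ u‖⁻¹ • deriv f u

/-- The unit tangent `τ = ∂_s γ`. -/
def tangent (γ : ℝ → ℂ) : ℝ → ℂ := dS γ γ

/-- The unit normal `ν = i τ`. -/
def normal (γ : ℝ → ℂ) (u : ℝ) : ℂ := Complex.I * tangent γ u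

/-- The curvature `k = ⟨∂_s τ, ν⟩`, so that `∂_s τ = k ν`. -/
def curvature (γ : ℝ → ℂ) (u : ℝ) : ℝ := (dS γ (tangent γ) u * conj (normal γ u)).re

/-- The second arc length derivative `k_ss` of the curvature. -/
def curvatureSS (γ : ℝ → ℂ) : ℝ → ℝ := dS γ (dS γ (curvature γ))

/-- `Γ` is a smooth solution on `[0,T)` of the curve diffusion flow `∂_t γ = - k_ss ν`. -/
structure IsCDFSolution (T : EReal) (Γ : ℝ → ℝ → ℂ) : Prop where
  pos : 0 < T
  smooth : ContDiffOn ℝ ∞ (fun p : ℝ × ℝ => Γ p.1 p.2) {p : ℝ × ℝ | 0 ≤ p.1 ∧ (p.1 : EReal) < T}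
  curve : ∀ t : ℝ, 0 ≤ t → (t : EReal) < T → IsClosedCurve (Γ t)
  flow : ∀ t : ℝ, 0 ≤ t → (t : EReal) < T → ∀ u : ℝ,
    HasDerivWithinAt (fun s => Γ s u) (-(curvatureSS (Γ t) u : ℂ) * normal (Γ t) u) (Ici 0) t

/-- `Γ` on `[0,T)` is a solution of the curve diffusion flow with initial curve `η` and with
maximal existence time `T`. -/
def IsMaximalCDFSolution (T : EReal) (Γ : ℝ → ℝ → ℂ) (η : ℝ → ℂ) : Prop :=
  IsCDFSolution T Γ ∧ Γ 0 = η ∧
    ∀ (T' : EReal) (Γ' : ℝ → ℝ → ℂ), IsCDFSolution T' Γ' → Γ' 0 = η → T' ≤ T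

/-- A similarity transformation of the plane: a map multiplying all distances by one
positive factor. -/
def IsSimilarity (S : ℂ → ℂ) : Prop :=
  ∃ r : ℝ, 0 < r ∧ ∀ z w : ℂ, dist (S z) (S w) = r * dist z w

/-- A reparametrisation: (a lift to `ℝ` of) a smooth diffeomorphism of the circle `ℝ / ℤ`,
preserving or reversing the orientation. -/
def IsReparam (φ : ℝ → ℝ) : Prop :=
  ContDiff ℝ ∞ φ ∧ (∀ u, deriv φ u ≠ 0) ∧
    ((∀ u, φ (u + 1) = φ u + 1) ∨ (∀ u, φ (u + 1) = φ u - 1))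

/-- `Γ(t,·)` converges modulo similarity to `γ` as `t → T`: for suitable similarities `S t` and
reparametrisations `φ t`, all derivatives of `S t ∘ Γ t ∘ φ t` converge uniformly to those
of `γ`. -/
def ConvergesModSimilarity (T : EReal) (Γ : ℝ → ℝ → ℂ) (γ : ℝ → ℂ) : Prop :=
  ∃ (S : ℝ → ℂ → ℂ) (φ : ℝ → ℝ → ℝ),
    (∀ t : ℝ, 0 ≤ t → (t : EReal) < T → IsSimilarity (S t) ∧ IsReparam (φ t)) ∧
    ∀ (j : ℕ) (ε : ℝ), 0 < ε → ∃ t₀ : ℝ, 0 ≤ t₀ ∧ (t₀ : EReal) < T ∧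
      ∀ t : ℝ, t₀ ≤ t → (t : EReal) < T → ∀ u : ℝ,
        ‖iteratedDeriv j (fun v => S t (Γ t (φ t v))) u - iteratedDeriv j γ u‖ < ε

/-- The basic `C^∞` neighbourhoods of `γ`: `η` is in the neighbourhood given by `k` and `ε` when
all derivatives of order at most `k` differ by less than `ε` everywhere. -/
def IsClose (k : ℕ) (ε : ℝ) (γ η : ℝ → ℂ) : Prop :=
  ∀ j : ℕ, j ≤ k → ∀ u : ℝ, ‖iteratedDeriv j γ u - iteratedDeriv j η u‖ < ε

/-- `γ` is dynamically stable for the curve diffusion flow: for all initial curves `η` in some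
`C^∞` neighbourhood of `γ`, the solution with initial curve `η`, taken up to its maximal existence
time, converges modulo similarity to `γ`. -/
def DynamicallyStableCDF (γ : ℝ → ℂ) : Prop :=
  ∃ (k : ℕ) (ε : ℝ), 0 < ε ∧ ∀ η : ℝ → ℂ, IsClosedCurve η → IsClose k ε γ η →
    ∃ (T : EReal) (Γ : ℝ → ℝ → ℂ), IsMaximalCDFSolution T Γ η ∧ ConvergesModSimilarity T Γ γ

/-- `γ` is a round circle traversed once. -/
def IsOnceCoveredCircle (γ : ℝ → ℂ) : Prop :=
  ∃ (c : ℂ) (r : ℝ), 0 < r ∧ range γ = Metric.sphere c r ∧ InjOn γ (Ico 0 1)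

/-- Length of a closed curve. -/
def len (γ : ℝ → ℂ) : ℝ := ∫ u in (0:ℝ)..1, ‖deriv γ u‖

/-- Signed enclosed area of a closed curve. -/
def area (γ : ℝ → ℂ) : ℝ := (1 / 2) * ∫ u in (0:ℝ)..1, (conj (γ u) * deriv γ u).im

end Pool.Agent.MP7c1622
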