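import Pool.Agent.Lib.MP_7c1622_gt.Variation

set_option autoImplicit false

noncomputable section

namespace Pool.Agent.MP7c1622

open Set Filter Topology ComplexConjugate MeasureTheory
open scoped ContDiff

/-- differentiation under the integral sign over `[0,1]` for smooth integrands -/
lemma hasDerivAt_integral_of_smooth {G : ℝ × ℝ → ℝ} {a b t : ℝ} (ht : t ∈ Ioo a b)
    (hG : ∀ s ∈ Ioo a b, ∀ u, ContDiffAt ℝ 1 G (s, u)) :
    HasDerivAt (fun s => ∫ u in (0:ℝ)..1, G (s, u))
      (∫ u in (0:ℝ)..1, fderiv ℝ G (t, u) (1, 0)) t := by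
  obtain ⟨δ, hδ, hball⟩ := Metric.isOpen_iff.1 isOpen_Ioo t ht
  have hsub : Icc (t - δ / 2) (t + δ / 2) ⊆ Ioo a b := by
    intro s hs
    apply hball
    rw [Metric.mem_ball, Real.dist_eq, abs_lt]
    constructor <;> linarith [hs.1, hs.2]
  have hGc : ∀ s ∈ Ioo a b, ∀ u, ContinuousAt G (s, u) := fun s hs u => (hG s hs u).continuousAt
  have hG'c : ∀ s ∈ Ioo a b, ∀ u, ContinuousAt (fun p => fderiv ℝ G p (1, 0)) (s, u) := by
    intro s hs u
    have h1 : ContDiffAt ℝ 0 (fderiv ℝ G) (s, u) := (hG s hs u).fderiv_right (by norm_num)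
    exact h1.continuousAt.clm_apply continuousAt_const
  have hcompact : IsCompact (Icc (t - δ / 2) (t + δ / 2) ×ˢ Icc (0:ℝ) 1) :=
    isCompact_Icc.prod isCompact_Icc
  obtain ⟨M, hM⟩ := hcompact.exists_bound_of_continuousOn
    (f := fun p => fderiv ℝ G p (1, 0)) (fun p hp =>
      (hG'c p.1 (hsub hp.1) p.2).continuousWithinAt)
  have hslice : ∀ s ∈ Ioo a b, Continuous (fun u => G (s, u)) := by
    intro s hs
    rw [continuous_iff_continuousAt]
    intro u
    exact ContinuousAt.comp (f := fun u : ℝ => (s, u)) (g := G) (x := u) (hGc s hs u)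
      (by fun_prop)
  have hslice' : ∀ s ∈ Ioo a b, Continuous (fun u => fderiv ℝ G (s, u) (1, 0)) := by
    intro s hs
    rw [continuous_iff_continuousAt]
    intro u
    exact ContinuousAt.comp (f := fun u : ℝ => (s, u)) (g := fun p => fderiv ℝ G p (1, 0))
      (x := u) (hG'c s hs u) (by fun_prop)
  refine (intervalIntegral.hasDerivAt_integral_of_dominated_loc_of_deriv_le
    (F := fun s u => G (s, u)) (F' := fun s u => fderiv ℝ G (s, u) (1, 0))
    (s := Icc (t - δ / 2) (t + δ / 2)) (bound := fun _ => M)
    (Icc_mem_nhds (by linarith) (by linarith)) ?_ ?_ ?_ ?_ ?_ ?_).2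
  · filter_upwards [Ioo_mem_nhds ht.1 ht.2] with s hs
    exact (hslice s hs).aestronglyMeasurable
  · exact (hslice t ht).intervalIntegrable _ _
  · exact (hslice' t ht).aestronglyMeasurable
  · refine Eventually.of_forall fun u hu s hs => hM (s, u) ⟨hs, ?_⟩
    rw [uIoc_of_le zero_le_one] at hu
    exact ⟨hu.1.le, hu.2⟩
  · exact continuous_const.intervalIntegrable _ _
  · refine Eventually.of_forall fun u _ s hs => ?_
    have h1 : HasFDerivAt G (fderiv ℝ G (s, u)) (s, u) :=
      ((hG s (hsub hs) u).differentiableAt (by norm_num)).hasFDerivAt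
    have h2 : HasDerivAt (fun s : ℝ => (s, u)) ((1:ℝ), (0:ℝ)) s :=
      (hasDerivAt_id s).prodMk (hasDerivAt_const s u)
    exact h1.comp_hasDerivAt s h2

section geometry
variable {γ : ℝ → ℂ}

lemma IsClosedCurve.normal_sp (h : IsClosedCurve γ) : SP (normal γ) :=
  ⟨contDiff_const.mul h.tangent_sp.smooth, fun u => by
    unfold normal; rw [h.tangent_sp.per]⟩

lemma IsClosedCurve.curvature_sp (h : IsClosedCurve γ) : SP (curvature γ) := by
  have h1 := (h.normal_sp.conj_mul_re (h.dS_sp h.tangent_sp))
  have h2 : curvature γ = fun u => (conj (normal γ u) * dS γ (tangent γ) u).re := by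
    funext u
    unfold curvature
    rw [mul_comm]
  rw [h2]
  exact h1

/-- `∂_s τ = k ν` -/
lemma IsClosedCurve.deriv_tangent (h : IsClosedCurve γ) (u : ℝ) :
    deriv (tangent γ) u = ((‖deriv γ u‖ * curvature γ u : ℝ) : ℂ) * normal γ u := by
  have hre : (conj (tangent γ u) * deriv (tangent γ) u).re = 0 := by
    have h1 : ∀ v, (conj (tangent γ v) * tangent γ v).re = 1 := by
      intro v
      have h3 : conj (tangent γ v) * tangent γ v = (Complex.normSq (tangent γ v) : ℂ) := by
        rw [← Complex.mul_conj]; ring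
      rw [h3, Complex.normSq_eq_norm_sq, h.norm_tangent]
      norm_num
    have h2 := hasDerivAt_conj_mul_re (h.tangent_sp.hasDerivAt u) (h.tangent_sp.hasDerivAt u)
    have h3 : (fun u => (conj (tangent γ u) * tangent γ u).re) = fun _ => (1:ℝ) := funext h1
    rw [h3] at h2
    have h4 := h2.unique (hasDerivAt_const u (1:ℝ))
    have h5 : (conj (deriv (tangent γ) u) * tangent γ u).re =
        (conj (tangent γ u) * deriv (tangent γ) u).re := by
      simp only [Complex.mul_re, Complex.conj_re, Complex.conj_im]; ring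
    rw [h5] at h4
    linarith
  have hsp := h.speed_pos u
  have hk : ‖deriv γ u‖ * curvature γ u = (deriv (tangent γ) u * conj (normal γ u)).re := by
    unfold curvature dS
    rw [Complex.real_smul, mul_assoc, Complex.re_ofReal_mul, ← mul_assoc,
      mul_inv_cancel₀ hsp.ne', one_mul]
  rw [hk]
  have h1 : conj (tangent γ u) * tangent γ u = 1 := by
    have h3 : conj (tangent γ u) * tangent γ u = (Complex.normSq (tangent γ u) : ℂ) := by
      rw [← Complex.mul_conj]; ring
    rw [h3, Complex.normSq_eq_norm_sq, h.norm_tangent]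
    norm_num
  have h2 : conj (tangent γ u) * deriv (tangent γ) u =
      (((deriv (tangent γ) u * conj (normal γ u)).re : ℝ) : ℂ) * Complex.I := by
    apply Complex.ext
    · rw [hre]; simp
    · unfold normal
      simp only [Complex.mul_re, Complex.mul_im, Complex.conj_re, Complex.conj_im, map_mul,
        Complex.conj_I, Complex.ofReal_re, Complex.ofReal_im, Complex.I_re, Complex.I_im,
        Complex.neg_re, Complex.neg_im]
      ring
  calc deriv (tangent γ) u = (conj (tangent γ u) * tangent γ u) * deriv (tangent γ) u := by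
        rw [h1, one_mul]
    _ = (conj (tangent γ u) * deriv (tangent γ) u) * tangent γ u := by ring
    _ = _ := by rw [h2]; unfold normal; ring

lemma IsClosedCurve.normSq_normal (h : IsClosedCurve γ) (u : ℝ) :
    conj (normal γ u) * normal γ u = 1 := by
  have h3 : conj (normal γ u) * normal γ u = (Complex.normSq (normal γ u) : ℂ) := by
    rw [← Complex.mul_conj]; ring
  rw [h3, Complex.normSq_eq_norm_sq]
  unfold normal
  rw [norm_mul, Complex.norm_I, h.norm_tangent]
  norm_num

/-- the velocity of the curve diffusion flow -/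
def vel (γ : ℝ → ℂ) (u : ℝ) : ℂ := -(curvatureSS γ u : ℂ) * normal γ u

lemma IsClosedCurve.curvatureSS_sp (h : IsClosedCurve γ) : SP (curvatureSS γ) :=
  h.dS_sp (h.dS_sp h.curvature_sp)

lemma IsClosedCurve.vel_sp (h : IsClosedCurve γ) : SP (vel γ) := by
  refine ⟨?_, fun u => ?_⟩
  · unfold vel
    exact ((Complex.ofRealCLM.contDiff.comp h.curvatureSS_sp.smooth).neg).mul h.normal_sp.smooth
  · unfold vel
    rw [h.curvatureSS_sp.per, h.normal_sp.per]

lemma IsClosedCurve.speed_mul_curvatureSS (h : IsClosedCurve γ) (u : ℝ) :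
    ‖deriv γ u‖ * curvatureSS γ u = deriv (dS γ (curvature γ)) u := by
  have : curvatureSS γ u = ‖deriv γ u‖⁻¹ • deriv (dS γ (curvature γ)) u := rfl
  rw [this, smul_eq_mul, ← mul_assoc, mul_inv_cancel₀ (h.speed_pos u).ne', one_mul]

/-- first variation of length in direction of the velocity -/
lemma IsClosedCurve.lenVar_vel_nonpos (h : IsClosedCurve γ) :
    ∫ u in (0:ℝ)..1, (conj (tangent γ u) * deriv (vel γ) u).re ≤ 0 := by
  rw [parts_re h.tangent_sp h.vel_sp]
  have e1 : ∀ u, (conj (deriv (tangent γ) u) * vel γ u).re =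
      -(curvature γ u * deriv (dS γ (curvature γ)) u) := by
    intro u
    rw [h.deriv_tangent, ← h.speed_mul_curvatureSS]
    unfold vel
    rw [map_mul, Complex.conj_ofReal]
    have e2 : ((‖deriv γ u‖ * curvature γ u : ℝ) : ℂ) * conj (normal γ u) *
        (-(curvatureSS γ u : ℂ) * normal γ u) =
        ((-(curvature γ u * (‖deriv γ u‖ * curvatureSS γ u)) : ℝ) : ℂ) *
          (conj (normal γ u) * normal γ u) := by
      push_cast; ring
    rw [e2, h.normSq_normal, mul_one, Complex.ofReal_re]
  simp_rw [e1]
  rw [intervalIntegral.integral_neg, neg_neg]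
  have hk := h.curvature_sp
  have hks := h.dS_sp hk
  have e3 : SP (fun u => curvature γ u * dS γ (curvature γ) u) :=
    ⟨hk.smooth.mul hks.smooth, fun u => by simp only [hk.per, hks.per]⟩
  have e4 := integral_deriv_periodic e3
  have e5 : deriv (fun u => curvature γ u * dS γ (curvature γ) u) = fun u =>
      deriv (curvature γ) u * dS γ (curvature γ) u +
        curvature γ u * deriv (dS γ (curvature γ)) u :=
    funext fun u => ((hk.hasDerivAt u).mul (hks.hasDerivAt u)).deriv
  have i1 : IntervalIntegrable (fun u => deriv (curvature γ) u * dS γ (curvature γ) u)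
      volume 0 1 := (hk.deriv.continuous.mul hks.continuous).intervalIntegrable _ _
  have i2 : IntervalIntegrable (fun u => curvature γ u * deriv (dS γ (curvature γ)) u)
      volume 0 1 := (hk.continuous.mul hks.deriv.continuous).intervalIntegrable _ _
  rw [e5, intervalIntegral.integral_add i1 i2] at e4
  have e6 : 0 ≤ ∫ u in (0:ℝ)..1, deriv (curvature γ) u * dS γ (curvature γ) u := by
    apply intervalIntegral.integral_nonneg zero_le_one
    intro u _
    unfold dS
    rw [smul_eq_mul]
    have := h.speed_pos u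
    have e7 : deriv (curvature γ) u * (‖deriv γ u‖⁻¹ * deriv (curvature γ) u) =
        ‖deriv γ u‖⁻¹ * deriv (curvature γ) u ^ 2 := by ring
    rw [e7]; positivity
  linarith

/-- first variation of area in direction of the velocity -/
lemma IsClosedCurve.areaVar_vel (h : IsClosedCurve γ) :
    ∫ u in (0:ℝ)..1, (conj (vel γ u) * deriv γ u).im = 0 := by
  have e1 : ∀ u, (conj (vel γ u) * deriv γ u).im = deriv (dS γ (curvature γ)) u := by
    intro u
    rw [← h.speed_mul_curvatureSS]
    unfold vel
    have e2 := h.deriv_eq u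
    set n := ‖deriv γ u‖ with hn
    have h1 : conj (tangent γ u) * tangent γ u = 1 := by
      have h3 : conj (tangent γ u) * tangent γ u = (Complex.normSq (tangent γ u) : ℂ) := by
        rw [← Complex.mul_conj]; ring
      rw [h3, Complex.normSq_eq_norm_sq, h.norm_tangent]
      norm_num
    rw [e2]
    unfold normal
    rw [map_mul, map_neg, Complex.conj_ofReal, map_mul, Complex.conj_I]
    have e3 : -(curvatureSS γ u : ℂ) * (-Complex.I * conj (tangent γ u)) * (n * tangent γ u) =
        ((n * curvatureSS γ u : ℝ) : ℂ) * Complex.I * (conj (tangent γ u) * tangent γ u) := by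
      push_cast; ring
    rw [e3, h1, mul_one]
    simp
  simp_rw [e1]
  exact integral_deriv_periodic (h.dS_sp h.curvature_sp)

end geometry

end Pool.Agent.MP7c1622
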