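import Pool.Agent.Lib.MP_7c1622_gt.Flow

set_option autoImplicit false

noncomputable section

namespace Pool.Agent.MP7c1622

open Set Filter Topology ComplexConjugate MeasureTheory
open scoped ContDiff

section
variable {T : EReal} {Γ : ℝ → ℝ → ℂ}

/-- the map of two variables -/
def two (Γ : ℝ → ℝ → ℂ) (p : ℝ × ℝ) : ℂ := Γ p.1 p.2

/-- the space-time domain -/
def dom (T : EReal) : Set (ℝ × ℝ) := {p : ℝ × ℝ | 0 ≤ p.1 ∧ (p.1 : EReal) < T}

lemma mem_dom_nhds {t u : ℝ} (ht : 0 < t) (htT : (t : EReal) < T) : dom T ∈ 𝓝 (t, u) := by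
  have h1 : IsOpen {p : ℝ × ℝ | 0 < p.1} := isOpen_lt continuous_const continuous_fst
  have h2 : IsOpen {p : ℝ × ℝ | (p.1 : EReal) < T} :=
    isOpen_lt (continuous_coe_real_ereal.comp continuous_fst) continuous_const
  filter_upwards [(h1.inter h2).mem_nhds ⟨ht, htT⟩] with p hp
  exact ⟨le_of_lt hp.1, hp.2⟩

lemma IsCDFSolution.contDiffAt (h : IsCDFSolution T Γ) {t u : ℝ} (ht : 0 < t)
    (htT : (t : EReal) < T) : ContDiffAt ℝ ∞ (two Γ) (t, u) :=
  (h.smooth (t, u) ⟨ht.le, htT⟩).contDiffAt (mem_dom_nhds ht htT)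

lemma hasDerivAt_slice_u {E : Type} [NormedAddCommGroup E] [NormedSpace ℝ E]
    {F : ℝ × ℝ → E} {L : ℝ × ℝ →L[ℝ] E} {t u : ℝ}
    (h : HasFDerivAt F L (t, u)) : HasDerivAt (fun v => F (t, v)) (L (0, 1)) u := by
  have h2 : HasDerivAt (fun v : ℝ => (t, v)) ((0:ℝ), (1:ℝ)) u :=
    (hasDerivAt_const u t).prodMk (hasDerivAt_id u)
  exact h.comp_hasDerivAt u h2

lemma hasDerivAt_slice_t {E : Type} [NormedAddCommGroup E] [NormedSpace ℝ E]
    {F : ℝ × ℝ → E} {L : ℝ × ℝ →L[ℝ] E} {t u : ℝ}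
    (h : HasFDerivAt F L (t, u)) : HasDerivAt (fun s => F (s, u)) (L (1, 0)) t := by
  have h2 : HasDerivAt (fun s : ℝ => (s, u)) ((1:ℝ), (0:ℝ)) t :=
    (hasDerivAt_id t).prodMk (hasDerivAt_const t u)
  exact h.comp_hasDerivAt t h2

lemma IsCDFSolution.deriv_u (h : IsCDFSolution T Γ) {t u : ℝ} (ht : 0 < t)
    (htT : (t : EReal) < T) : deriv (Γ t) u = fderiv ℝ (two Γ) (t, u) (0, 1) :=
  (hasDerivAt_slice_u ((h.contDiffAt ht htT).differentiableAt (by simp)).hasFDerivAt).deriv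

lemma IsCDFSolution.deriv_t (h : IsCDFSolution T Γ) {t u : ℝ} (ht : 0 < t)
    (htT : (t : EReal) < T) : fderiv ℝ (two Γ) (t, u) (1, 0) = vel (Γ t) u := by
  have h1 : HasDerivAt (fun s => Γ s u) (fderiv ℝ (two Γ) (t, u) (1, 0)) t :=
    hasDerivAt_slice_t ((h.contDiffAt ht htT).differentiableAt (by simp)).hasFDerivAt
  have h2 : HasDerivAt (fun s => Γ s u) (vel (Γ t) u) t :=
    (h.flow t ht.le htT u).hasDerivAt (Ici_mem_nhds ht)
  exact h1.unique h2

/-- time derivative of the space derivative -/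
lemma IsCDFSolution.hasDerivAt_deriv (h : IsCDFSolution T Γ) {t u : ℝ} (ht : 0 < t)
    (htT : (t : EReal) < T) :
    HasDerivAt (fun s => fderiv ℝ (two Γ) (s, u) (0, 1)) (deriv (vel (Γ t)) u) t := by
  have hF := h.contDiffAt (u := u) ht htT
  have hF1 : ContDiffAt ℝ 1 (fderiv ℝ (two Γ)) (t, u) :=
    hF.fderiv_right (m := 1) (by norm_cast)
  have hF2 : HasFDerivAt (fderiv ℝ (two Γ)) (fderiv ℝ (fderiv ℝ (two Γ)) (t, u)) (t, u) :=
    (hF1.differentiableAt (by norm_num)).hasFDerivAt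
  have hsymm : IsSymmSndFDerivAt ℝ (two Γ) (t, u) := by
    apply ContDiffAt.isSymmSndFDerivAt (n := ∞) hF
    simp only [minSmoothness_of_isRCLikeNormedField]
    norm_cast
  have h1 : HasFDerivAt (fun p => fderiv ℝ (two Γ) p (0, 1))
      ((fderiv ℝ (fderiv ℝ (two Γ)) (t, u)).flip (0, 1)) (t, u) := by
    have := hF2.clm_apply (hasFDerivAt_const ((0:ℝ), (1:ℝ)) (t, u))
    simpa using this
  have h2 : HasFDerivAt (fun p => fderiv ℝ (two Γ) p (1, 0))
      ((fderiv ℝ (fderiv ℝ (two Γ)) (t, u)).flip (1, 0)) (t, u) := by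
    have := hF2.clm_apply (hasFDerivAt_const ((1:ℝ), (0:ℝ)) (t, u))
    simpa using this
  have h3 := hasDerivAt_slice_t h1
  have h4 := hasDerivAt_slice_u h2
  have h5 : (fun v => fderiv ℝ (two Γ) (t, v) (1, 0)) = vel (Γ t) := by
    funext v
    exact h.deriv_t ht htT
  rw [h5] at h4
  have h6 : ((fderiv ℝ (fderiv ℝ (two Γ)) (t, u)).flip (0, 1)) (1, 0) =
      ((fderiv ℝ (fderiv ℝ (two Γ)) (t, u)).flip (1, 0)) (0, 1) := by
    simp only [ContinuousLinearMap.flip_apply]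
    exact hsymm (1, 0) (0, 1)
  rw [h6, ← h4.deriv] at h3
  exact h3

lemma contDiffAt_fderiv_apply {F : ℝ × ℝ → ℂ} {p : ℝ × ℝ} (hF : ContDiffAt ℝ ∞ F p)
    (v : ℝ × ℝ) : ContDiffAt ℝ ∞ (fun q => fderiv ℝ F q v) p := by
  have h1 : ContDiffAt ℝ ∞ (fderiv ℝ F) p := hF.fderiv_right (by simp)
  exact h1.clm_apply contDiffAt_const

lemma IsCDFSolution.len_hasDerivAt (h : IsCDFSolution T Γ) {t b : ℝ} (ht : t ∈ Ioo 0 b)
    (hbT : (b : EReal) < T) :
    HasDerivAt (fun s => len (Γ s))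
      (∫ u in (0:ℝ)..1, (conj (tangent (Γ t) u) * deriv (vel (Γ t)) u).re) t := by
  have hlt : ∀ s ∈ Ioo 0 b, (s : EReal) < T := fun s hs =>
    lt_of_le_of_lt (by exact_mod_cast hs.2.le) hbT
  set G : ℝ × ℝ → ℝ := fun p => ‖fderiv ℝ (two Γ) p (0, 1)‖ with hG
  have hne : ∀ s ∈ Ioo 0 b, ∀ u, fderiv ℝ (two Γ) (s, u) (0, 1) ≠ 0 := by
    intro s hs u
    rw [← h.deriv_u hs.1 (hlt s hs)]
    exact (h.curve s hs.1.le (hlt s hs)).immersed u
  have hGs : ∀ s ∈ Ioo 0 b, ∀ u, ContDiffAt ℝ 1 G (s, u) := by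
    intro s hs u
    have h1 : ContDiffAt ℝ ∞ (fun p => fderiv ℝ (two Γ) p (0, 1)) (s, u) :=
      contDiffAt_fderiv_apply (h.contDiffAt hs.1 (hlt s hs)) (0, 1)
    exact (h1.norm ℝ (hne s hs u)).of_le (by simp)
  have hmain := hasDerivAt_integral_of_smooth ht hGs
  have e1 : ∀ u, fderiv ℝ G (t, u) (1, 0) =
      (conj (tangent (Γ t) u) * deriv (vel (Γ t)) u).re := by
    intro u
    have h1 : HasFDerivAt G (fderiv ℝ G (t, u)) (t, u) :=
      ((hGs t ht u).differentiableAt (by norm_num)).hasFDerivAt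
    have h3 : HasDerivAt (fun s => G (s, u)) (fderiv ℝ G (t, u) (1, 0)) t :=
      hasDerivAt_slice_t h1
    have h4 : HasDerivAt (fun s => G (s, u) ^ 2)
        (2 * G (t, u) * fderiv ℝ G (t, u) (1, 0)) t := by
      have h30 : HasDerivAt (fun s => G (s, u) ^ 2) _ t := h3.pow 2
      refine h30.congr_deriv ?_
      simp
    have hd := h.hasDerivAt_deriv (u := u) ht.1 (hlt t ht)
    have h5 := hasDerivAt_conj_mul_re hd hd
    have h6 : (fun s => (conj (fderiv ℝ (two Γ) (s, u) (0, 1)) *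
        fderiv ℝ (two Γ) (s, u) (0, 1)).re) = fun s => G (s, u) ^ 2 := by
      funext s
      have h7 : conj (fderiv ℝ (two Γ) (s, u) (0, 1)) * fderiv ℝ (two Γ) (s, u) (0, 1) =
          (Complex.normSq (fderiv ℝ (two Γ) (s, u) (0, 1)) : ℂ) := by
        rw [← Complex.mul_conj]; ring
      rw [h7, Complex.ofReal_re, Complex.normSq_eq_norm_sq]
    rw [h6] at h5
    have h7 := h4.unique h5
    have hGt : G (t, u) = ‖deriv (Γ t) u‖ := by
      rw [h.deriv_u ht.1 (hlt t ht)]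
    have hGpos : 0 < G (t, u) := by
      rw [hGt]; exact (h.curve t ht.1.le (hlt t ht)).speed_pos u
    rw [← h.deriv_u ht.1 (hlt t ht)] at h7
    have h8 : (conj (deriv (vel (Γ t)) u) * deriv (Γ t) u).re =
        (conj (deriv (Γ t) u) * deriv (vel (Γ t)) u).re := by
      simp only [Complex.mul_re, Complex.conj_re, Complex.conj_im]; ring
    rw [h8] at h7
    have h9 : (conj (tangent (Γ t) u) * deriv (vel (Γ t)) u).re =
        (G (t, u))⁻¹ * (conj (deriv (Γ t) u) * deriv (vel (Γ t)) u).re := by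
      unfold tangent dS
      rw [Complex.real_smul, map_mul, Complex.conj_ofReal, mul_assoc, Complex.re_ofReal_mul, hGt]
    rw [h9]
    field_simp
    linarith
  simp_rw [e1] at hmain
  refine hmain.congr_of_eventuallyEq ?_
  filter_upwards [Ioo_mem_nhds ht.1 ht.2] with s hs
  unfold len
  congr 1
  funext u
  rw [hG, h.deriv_u hs.1 (hlt s hs)]

lemma IsCDFSolution.area_hasDerivAt (h : IsCDFSolution T Γ) {t b : ℝ} (ht : t ∈ Ioo 0 b)
    (hbT : (b : EReal) < T) : HasDerivAt (fun s => area (Γ s)) 0 t := by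
  have hlt : ∀ s ∈ Ioo 0 b, (s : EReal) < T := fun s hs =>
    lt_of_le_of_lt (by exact_mod_cast hs.2.le) hbT
  set G : ℝ × ℝ → ℝ := fun p => (conj (two Γ p) * fderiv ℝ (two Γ) p (0, 1)).im with hG
  have hGs : ∀ s ∈ Ioo 0 b, ∀ u, ContDiffAt ℝ 1 G (s, u) := by
    intro s hs u
    have h0 := h.contDiffAt (u := u) hs.1 (hlt s hs)
    have h1 : ContDiffAt ℝ ∞ (fun p => fderiv ℝ (two Γ) p (0, 1)) (s, u) :=
      contDiffAt_fderiv_apply h0 (0, 1)
    have h2 : ContDiffAt ℝ ∞ (fun p => conj (two Γ p)) (s, u) :=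
      Complex.conjCLE.contDiff.contDiffAt.comp (s, u) h0
    have h3 : ContDiffAt ℝ ∞ G (s, u) :=
      Complex.imCLM.contDiff.contDiffAt.comp (s, u) (h2.mul h1)
    exact h3.of_le (by simp)
  have hmain := hasDerivAt_integral_of_smooth ht hGs
  have hc := h.curve t ht.1.le (hlt t ht)
  have e1 : ∀ u, fderiv ℝ G (t, u) (1, 0) =
      (conj (vel (Γ t) u) * deriv (Γ t) u).im + (conj (Γ t u) * deriv (vel (Γ t)) u).im := by
    intro u
    have h1 : HasFDerivAt G (fderiv ℝ G (t, u)) (t, u) :=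
      ((hGs t ht u).differentiableAt (by norm_num)).hasFDerivAt
    have h3 : HasDerivAt (fun s => G (s, u)) (fderiv ℝ G (t, u) (1, 0)) t :=
      hasDerivAt_slice_t h1
    have hd := h.hasDerivAt_deriv (u := u) ht.1 (hlt t ht)
    have hd0 : HasDerivAt (fun s => two Γ (s, u)) (vel (Γ t) u) t := by
      rw [← h.deriv_t ht.1 (hlt t ht)]
      exact hasDerivAt_slice_t
        ((h.contDiffAt ht.1 (hlt t ht)).differentiableAt (by simp)).hasFDerivAt
    have h5 := hasDerivAt_conj_mul_im hd0 hd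
    have h7 := h3.unique h5
    rw [h7, ← h.deriv_u ht.1 (hlt t ht)]
    rfl
  simp_rw [e1] at hmain
  have i1 : IntervalIntegrable (fun u => (conj (vel (Γ t) u) * deriv (Γ t) u).im)
      volume 0 1 := (hc.vel_sp.conj_mul_im hc.sp.deriv).continuous.intervalIntegrable _ _
  have i2 : IntervalIntegrable (fun u => (conj (Γ t u) * deriv (vel (Γ t)) u).im)
      volume 0 1 := (hc.sp.conj_mul_im hc.vel_sp.deriv).continuous.intervalIntegrable _ _
  have e2 : ∫ u in (0:ℝ)..1, ((conj (vel (Γ t) u) * deriv (Γ t) u).im +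
      (conj (Γ t u) * deriv (vel (Γ t)) u).im) = 0 := by
    rw [intervalIntegral.integral_add i1 i2, parts_im hc.sp hc.vel_sp, hc.areaVar_vel]
    have e3 : ∫ u in (0:ℝ)..1, (conj (deriv (Γ t) u) * vel (Γ t) u).im =
        - ∫ u in (0:ℝ)..1, (conj (vel (Γ t) u) * deriv (Γ t) u).im := by
      rw [← intervalIntegral.integral_neg]
      congr 1
      funext u
      simp only [Complex.mul_im, Complex.conj_re, Complex.conj_im]; ring
    rw [e3, hc.areaVar_vel]
    simp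
  rw [e2] at hmain
  have hmain2 := hmain.const_mul (1 / 2 : ℝ)
  rw [mul_zero] at hmain2
  refine hmain2.congr_of_eventuallyEq ?_
  filter_upwards [Ioo_mem_nhds ht.1 ht.2] with s hs
  unfold area
  congr 2
  funext u
  rw [hG, h.deriv_u hs.1 (hlt s hs)]
  rfl

end

end Pool.Agent.MP7c1622
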