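import Pool.Agent.Lib.MP_7c1622_gt.Variation

set_option autoImplicit false

noncomputable section

namespace Pool.Agent.MP7c1622

open Set Filter Topology ComplexConjugate
open scoped ContDiff

/-- similarities of the plane in complex form -/
lemma IsSimilarity.explicit {S : ℂ → ℂ} {r : ℝ} (hr : 0 < r)
    (hS : ∀ z w : ℂ, dist (S z) (S w) = r * dist z w) :
    ∃ a b : ℂ, ‖a‖ = r ∧ ((∀ z, S z = a * z + b) ∨ (∀ z, S z = a * conj z + b)) := by
  have hiso : Isometry (fun z => r⁻¹ • S z) := by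
    apply Isometry.of_dist_eq
    intro z w
    rw [dist_smul₀, hS, norm_inv, Real.norm_eq_abs, abs_of_pos hr, ← mul_assoc,
      inv_mul_cancel₀ hr.ne', one_mul]
  set A := hiso.affineIsometryOfStrictConvexSpace with hA
  have hAz : ∀ z, r⁻¹ • S z = A.linearIsometry z + r⁻¹ • S 0 := by
    intro z
    have h1 : A z = r⁻¹ • S z := rfl
    have h2 : A 0 = r⁻¹ • S 0 := rfl
    have h3 := A.map_vadd 0 z
    rw [h2] at h3
    simp only [vadd_eq_add, add_zero] at h3
    rw [← h1, h3]
  set B := A.linearIsometry.toLinearIsometryEquiv rfl with hB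
  have hBz : ∀ z, B z = A.linearIsometry z := fun z => rfl
  obtain ⟨a, ha⟩ := linear_isometry_complex B
  refine ⟨r * a, S 0, ?_, ?_⟩
  · rw [norm_mul, Complex.norm_real, Real.norm_eq_abs, abs_of_pos hr, Circle.norm_coe, mul_one]
  · have hrC : (r : ℂ) ≠ 0 := Complex.ofReal_ne_zero.2 hr.ne'
    have key : ∀ z, S z = r * B z + S 0 := by
      intro z
      have h1 := hAz z
      rw [← hBz] at h1
      have h2 := congrArg (fun x => (r:ℝ) • x) h1
      simp only [smul_add, smul_smul, mul_inv_cancel₀ hr.ne', one_smul] at h2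
      rw [h2, Complex.real_smul]
    rcases ha with ha | ha
    · left
      intro z
      rw [key z, ha, rotation_apply]
      ring
    · right
      intro z
      rw [key z, ha, LinearIsometryEquiv.trans_apply, rotation_apply, Complex.conjLIE_apply]
      ring

lemma len_affine (γ : ℝ → ℂ) (h : SP γ) (a b : ℂ) :
    len (fun v => a * γ v + b) = ‖a‖ * len γ := by
  unfold len
  have : ∀ v, deriv (fun v => a * γ v + b) v = a * deriv γ v := fun v =>
    (((h.hasDerivAt v).const_mul a).add_const b).deriv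
  simp_rw [this, norm_mul]
  rw [intervalIntegral.integral_const_mul]

lemma area_affine (γ : ℝ → ℂ) (h : SP γ) (a b : ℂ) :
    area (fun v => a * γ v + b) = ‖a‖ ^ 2 * area γ := by
  unfold area
  have hd : ∀ v, deriv (fun v => a * γ v + b) v = a * deriv γ v := fun v =>
    (((h.hasDerivAt v).const_mul a).add_const b).deriv
  have e : ∀ v, (conj (a * γ v + b) * deriv (fun v => a * γ v + b) v).im =
      ‖a‖ ^ 2 * (conj (γ v) * deriv γ v).im + (conj b * (a * deriv γ v)).im := by
    intro v
    rw [hd, map_add, add_mul, Complex.add_im, map_mul]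
    congr 1
    have : conj a * conj (γ v) * (a * deriv γ v) =
        ((‖a‖ ^ 2 : ℝ) : ℂ) * (conj (γ v) * deriv γ v) := by
      have h1 : ((‖a‖ ^ 2 : ℝ) : ℂ) = conj a * a := by
        rw [← Complex.normSq_eq_norm_sq, ← Complex.mul_conj]; ring
      rw [h1]; ring
    rw [this, Complex.im_ofReal_mul]
  have hc : SP (fun _ : ℝ => b) := ⟨contDiff_const, fun _ => rfl⟩
  have hac : SP (fun v => a * γ v) := ⟨contDiff_const.mul h.smooth, fun v => by simp only [h.per]⟩
  have hacd : deriv (fun v => a * γ v) = fun v => a * deriv γ v :=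
    funext fun v => ((h.hasDerivAt v).const_mul a).deriv
  have e2 : ∫ v in (0:ℝ)..1, (conj b * (a * deriv γ v)).im = 0 := by
    have h1 := parts_im hc hac
    rw [hacd] at h1
    rw [h1]; simp
  have i1 : IntervalIntegrable (fun v => ‖a‖ ^ 2 * (conj (γ v) * deriv γ v).im)
      MeasureTheory.volume 0 1 :=
    ((h.conj_mul_im h.deriv).continuous.const_mul _).intervalIntegrable _ _
  have i2 : IntervalIntegrable (fun v => (conj b * (a * deriv γ v)).im)
      MeasureTheory.volume 0 1 := by
    have := (hc.conj_mul_im hac.deriv).continuous.intervalIntegrable (μ := MeasureTheory.volume) 0 1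
    rwa [hacd] at this
  simp_rw [e]
  rw [intervalIntegral.integral_add i1 i2, e2, intervalIntegral.integral_const_mul]
  ring

lemma SP.conj {γ : ℝ → ℂ} (h : SP γ) : SP (fun v => conj (γ v)) :=
  ⟨Complex.conjCLE.contDiff.comp h.smooth, fun v => by simp only [h.per]⟩

lemma deriv_conj' {γ : ℝ → ℂ} (h : SP γ) (v : ℝ) :
    deriv (fun v => conj (γ v)) v = conj (deriv γ v) :=
  (Complex.conjCLE.hasFDerivAt.comp_hasDerivAt v (h.hasDerivAt v)).deriv

lemma len_conj {γ : ℝ → ℂ} (h : SP γ) : len (fun v => conj (γ v)) = len γ := by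
  unfold len
  simp_rw [deriv_conj' h, RCLike.norm_conj]

lemma area_conj {γ : ℝ → ℂ} (h : SP γ) : area (fun v => conj (γ v)) = - area γ := by
  unfold area
  have : ∀ v, (conj (conj (γ v)) * deriv (fun v => conj (γ v)) v).im =
      -(conj (γ v) * deriv γ v).im := by
    intro v
    rw [deriv_conj' h]
    simp only [Complex.mul_im, Complex.conj_re, Complex.conj_im]
    ring
  simp_rw [this]
  rw [intervalIntegral.integral_neg]
  ring

lemma IsReparam.sign {φ : ℝ → ℝ} (h : IsReparam φ) :
    ∃ σ : ℝ, |σ| = 1 ∧ (∀ u, |deriv φ u| = σ * deriv φ u) ∧ (∀ u, φ (u + 1) = φ u + σ) := by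
  obtain ⟨hs, hne, hp⟩ := h
  have hd : ∀ u, HasDerivAt φ (deriv φ u) u := fun u =>
    (hs.differentiable (by simp) u).hasDerivAt
  have hdich := hasDerivWithinAt_forall_lt_or_forall_gt_of_forall_ne (s := univ) (f := φ)
    (f' := deriv φ) (m := 0) convex_univ (fun x _ => (hd x).hasDerivWithinAt)
    (fun x _ => hne x)
  rcases hdich with hneg | hpos
  · have hanti : StrictAnti φ := strictAnti_of_deriv_neg fun x => hneg x (mem_univ x)
    rcases hp with hp | hp
    · exfalso
      have h1 := hp 0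
      have h2 := hanti (zero_lt_one' ℝ)
      rw [zero_add] at h1
      linarith
    · refine ⟨-1, by norm_num, fun u => ?_, fun u => by rw [hp]; ring⟩
      rw [abs_of_neg (hneg u (mem_univ u))]; ring
  · have hmono : StrictMono φ := strictMono_of_deriv_pos fun x => hpos x (mem_univ x)
    rcases hp with hp | hp
    · refine ⟨1, by norm_num, fun u => ?_, fun u => by rw [hp]⟩
      rw [abs_of_pos (hpos u (mem_univ u))]; ring
    · exfalso
      have h1 := hp 0
      have h2 := hmono (zero_lt_one' ℝ)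
      rw [zero_add] at h1
      linarith

lemma integral_reparam {φ : ℝ → ℝ} (h : IsReparam φ) {σ : ℝ} (hσ : |σ| = 1)
    (hp : ∀ u, φ (u + 1) = φ u + σ) {G : ℝ → ℝ} (hG : Continuous G) (hGp : ∀ u, G (u + 1) = G u) :
    ∫ u in (0:ℝ)..1, G (φ u) * deriv φ u = σ * ∫ u in (0:ℝ)..1, G u := by
  have hs := h.1
  have hd : ∀ u, HasDerivAt φ (deriv φ u) u := fun u =>
    (hs.differentiable (by simp) u).hasDerivAt
  have hdc : Continuous (deriv φ) := hs.continuous_deriv (by simp)
  have h1 := intervalIntegral.integral_comp_mul_deriv (a := 0) (b := 1) (f := φ) (f' := deriv φ)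
    (g := G) (fun x _ => hd x) hdc.continuousOn hG
  have h2 : φ 1 = φ 0 + σ := by
    have := hp 0
    rwa [zero_add] at this
  have hper : Function.Periodic G 1 := hGp
  have h3 : ∫ u in (0:ℝ)..1, G (φ u) * deriv φ u = ∫ x in φ 0..(φ 0 + σ), G x := by
    rw [← h2, ← h1]; rfl
  rw [h3]
  rcases eq_or_eq_neg_of_abs_eq hσ with h4 | h4
  · rw [h4, one_mul]
    have := hper.intervalIntegral_add_eq (φ 0) 0
    rw [zero_add] at this
    exact this
  · rw [h4]
    have := hper.intervalIntegral_add_eq (φ 0 + -1) 0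
    rw [zero_add, neg_add_cancel_right] at this
    rw [intervalIntegral.integral_symm, this]
    ring

lemma SP.comp_reparam {γ : ℝ → ℂ} (h : SP γ) {φ : ℝ → ℝ} (hφ : IsReparam φ) :
    SP (fun v => γ (φ v)) := by
  refine ⟨h.smooth.comp hφ.1, fun u => ?_⟩
  have hper : Function.Periodic γ 1 := h.per
  rcases hφ.2.2 with hp | hp
  · rw [hp, h.per]
  · rw [hp]
    exact hper.sub_eq _

lemma deriv_comp_reparam {γ : ℝ → ℂ} (h : SP γ) {φ : ℝ → ℝ} (hφ : IsReparam φ) (u : ℝ) :
    deriv (fun v => γ (φ v)) u = ((deriv φ u : ℝ) : ℂ) * deriv γ (φ u) := by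
  have hd : HasDerivAt φ (deriv φ u) u := (hφ.1.differentiable (by simp) u).hasDerivAt
  have := (HasDerivAt.scomp u (h.hasDerivAt (φ u)) hd).deriv
  rw [Complex.real_smul] at this
  exact this

lemma len_reparam {γ : ℝ → ℂ} (h : SP γ) {φ : ℝ → ℝ} (hφ : IsReparam φ) :
    len (fun v => γ (φ v)) = len γ := by
  obtain ⟨σ, hσ, hσd, hσp⟩ := hφ.sign
  have hσ2 : σ * σ = 1 := by
    rcases eq_or_eq_neg_of_abs_eq hσ with h4 | h4 <;> rw [h4] <;> norm_num
  unfold len
  have e : ∀ u, ‖deriv (fun v => γ (φ v)) u‖ = σ * (‖deriv γ (φ u)‖ * deriv φ u) := by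
    intro u
    rw [deriv_comp_reparam h hφ, norm_mul, Complex.norm_real, Real.norm_eq_abs, hσd]
    ring
  simp_rw [e]
  rw [intervalIntegral.integral_const_mul,
    integral_reparam (G := fun u => ‖deriv γ u‖) hφ hσ hσp h.deriv.continuous.norm
      (fun u => by rw [h.deriv.per]), ← mul_assoc, hσ2, one_mul]

lemma abs_area_reparam {γ : ℝ → ℂ} (h : SP γ) {φ : ℝ → ℝ} (hφ : IsReparam φ) :
    |area (fun v => γ (φ v))| = |area γ| := by
  obtain ⟨σ, hσ, hσd, hσp⟩ := hφ.sign
  have : area (fun v => γ (φ v)) = σ * area γ := by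
    unfold area
    have e : ∀ u, (conj (γ (φ u)) * deriv (fun v => γ (φ v)) u).im =
        (conj (γ (φ u)) * deriv γ (φ u)).im * deriv φ u := by
      intro u
      rw [deriv_comp_reparam h hφ]
      have : conj (γ (φ u)) * (((deriv φ u : ℝ) : ℂ) * deriv γ (φ u)) =
          ((deriv φ u : ℝ) : ℂ) * (conj (γ (φ u)) * deriv γ (φ u)) := by ring
      rw [this, Complex.im_ofReal_mul]
      ring
    simp_rw [e]
    rw [integral_reparam (G := fun u => (conj (γ u) * deriv γ u).im) hφ hσ hσp
      (h.conj_mul_im h.deriv).continuous (h.conj_mul_im h.deriv).per]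
    ring
  rw [this, abs_mul, hσ, one_mul]

/-- length and area of a similar and reparametrised curve -/
lemma len_area_similar {γ : ℝ → ℂ} (h : SP γ) {S : ℂ → ℂ} (hS : IsSimilarity S) {φ : ℝ → ℝ}
    (hφ : IsReparam φ) :
    ∃ r : ℝ, 0 < r ∧ SP (fun v => S (γ (φ v))) ∧ len (fun v => S (γ (φ v))) = r * len γ ∧
      |area (fun v => S (γ (φ v)))| = r ^ 2 * |area γ| := by
  obtain ⟨r, hr, hrS⟩ := hS
  obtain ⟨a, b, ha, hab⟩ := IsSimilarity.explicit hr hrS
  have hsp := h.comp_reparam hφ
  refine ⟨r, hr, ?_⟩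
  rcases hab with hab | hab
  · have e : (fun v => S (γ (φ v))) = fun v => a * γ (φ v) + b := funext fun v => hab _
    rw [e]
    refine ⟨⟨(contDiff_const.mul hsp.smooth).add contDiff_const, fun u => ?_⟩, ?_, ?_⟩
    · have := hsp.per u
      rw [this]
    · rw [len_affine _ hsp, ha, len_reparam h hφ]
    · rw [area_affine _ hsp, ha, abs_mul, abs_of_nonneg (sq_nonneg r), abs_area_reparam h hφ]
  · have e : (fun v => S (γ (φ v))) = fun v => a * conj (γ (φ v)) + b := funext fun v => hab _
    rw [e]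
    have hc := hsp.conj
    refine ⟨⟨(contDiff_const.mul hc.smooth).add contDiff_const, fun u => ?_⟩, ?_, ?_⟩
    · have := hc.per u
      rw [this]
    · rw [len_affine _ hc, ha, len_conj hsp, len_reparam h hφ]
    · rw [area_affine _ hc, ha, abs_mul, abs_of_nonneg (sq_nonneg r), area_conj hsp, abs_neg,
        abs_area_reparam h hφ]

/-- continuity of length and area for the `C^1` distance -/
lemma len_close {γ c : ℝ → ℂ} (h : SP γ) (hc : SP c) {ε : ℝ}
    (hcl : ∀ u, ‖deriv c u - deriv γ u‖ ≤ ε) : |len c - len γ| ≤ ε := by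
  unfold len
  rw [← intervalIntegral.integral_sub (hc.deriv.continuous.norm.intervalIntegrable _ _)
    (h.deriv.continuous.norm.intervalIntegrable _ _)]
  have := intervalIntegral.norm_integral_le_of_norm_le_const (a := (0:ℝ)) (b := 1) (C := ε)
    (f := fun u => ‖deriv c u‖ - ‖deriv γ u‖) (fun u _ => by
      rw [Real.norm_eq_abs]
      exact (abs_norm_sub_norm_le _ _).trans (hcl u))
  simpa using this

lemma area_close {γ : ℝ → ℂ} (h : SP γ) : ∃ K : ℝ, 0 ≤ K ∧ ∀ (c : ℝ → ℂ) (ε : ℝ), SP c →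
    0 ≤ ε → ε ≤ 1 → (∀ u, ‖c u - γ u‖ ≤ ε) → (∀ u, ‖deriv c u - deriv γ u‖ ≤ ε) →
    |area c - area γ| ≤ K * ε := by
  obtain ⟨M, hM, hMb⟩ := bounded_of_periodic h.continuous h.per
  obtain ⟨M', hM', hMb'⟩ := bounded_of_periodic h.deriv.continuous h.deriv.per
  refine ⟨M + M' + 1, by positivity, ?_⟩
  intro c ε hc hε0 hε1 h0 h1
  unfold area
  rw [← mul_sub, ← intervalIntegral.integral_sub
    ((hc.conj_mul_im hc.deriv).continuous.intervalIntegrable _ _)
    ((h.conj_mul_im h.deriv).continuous.intervalIntegrable _ _), abs_mul,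
    abs_of_pos (by norm_num : (0:ℝ) < 1 / 2)]
  have hb : ∀ u, ‖(conj (c u) * deriv c u).im - (conj (γ u) * deriv γ u).im‖ ≤
      (M + M' + 1) * ε := by
    intro u
    rw [← Complex.sub_im, Real.norm_eq_abs]
    refine (Complex.abs_im_le_norm _).trans ?_
    have e : conj (c u) * deriv c u - conj (γ u) * deriv γ u =
        conj (c u - γ u) * (deriv c u - deriv γ u) + conj (c u - γ u) * deriv γ u +
          conj (γ u) * (deriv c u - deriv γ u) := by
      rw [map_sub]; ring
    rw [e]
    have n1 : ‖conj (c u - γ u) * (deriv c u - deriv γ u)‖ ≤ ε * 1 := by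
      rw [norm_mul, RCLike.norm_conj]
      exact mul_le_mul (h0 u) ((h1 u).trans hε1) (norm_nonneg _) hε0
    have n2 : ‖conj (c u - γ u) * deriv γ u‖ ≤ ε * M' := by
      rw [norm_mul, RCLike.norm_conj]
      exact mul_le_mul (h0 u) (hMb' u) (norm_nonneg _) hε0
    have n3 : ‖conj (γ u) * (deriv c u - deriv γ u)‖ ≤ M * ε := by
      rw [norm_mul, RCLike.norm_conj]
      exact mul_le_mul (hMb u) (h1 u) (norm_nonneg _) hM.le
    calc _ ≤ ε * 1 + ε * M' + M * ε :=
          (norm_add₃_le).trans (add_le_add (add_le_add n1 n2) n3)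
      _ = _ := by ring
  have := intervalIntegral.norm_integral_le_of_norm_le_const (a := (0:ℝ)) (b := 1)
    (C := (M + M' + 1) * ε)
    (f := fun u => (conj (c u) * deriv c u).im - (conj (γ u) * deriv γ u).im) (fun u _ => hb u)
  simp only [sub_zero, abs_one, mul_one, Real.norm_eq_abs] at this
  have hKε : 0 ≤ (M + M' + 1) * ε := by positivity
  nlinarith [abs_nonneg (∫ u in (0:ℝ)..1, ((conj (c u) * deriv c u).im -
    (conj (γ u) * deriv γ u).im))]

end Pool.Agent.MP7c1622
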