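import Pool.Agent.Lib.MP_7c1622_gt.Flow2
import Pool.Agent.Lib.MP_7c1622_gt.Invariance
import Pool.Agent.Lib.MP_7c1622_gt.Circle2

set_option autoImplicit false

noncomputable section

namespace Pool.Agent.MP7c1622

open Set Filter Topology ComplexConjugate MeasureTheory
open scoped ContDiff

section
variable {T : EReal} {Γ : ℝ → ℝ → ℂ}

lemma uniqueDiffOn_dom (hT : 0 < T) : UniqueDiffOn ℝ (dom T) := by
  obtain ⟨b, hb0, hbT⟩ := EReal.lt_iff_exists_real_btwn.1 hT
  have hb : 0 < b := by exact_mod_cast hb0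
  have e : dom T = {t : ℝ | 0 ≤ t ∧ (t : EReal) < T} ×ˢ univ := by
    ext p; simp [dom]
  rw [e]
  apply UniqueDiffOn.prod _ uniqueDiffOn_univ
  apply uniqueDiffOn_convex
  · apply OrdConnected.convex
    constructor
    intro x hx y hy z hz
    exact ⟨hx.1.trans hz.1, lt_of_le_of_lt (by exact_mod_cast hz.2) hy.2⟩
  · refine ⟨b / 2, ?_⟩
    rw [mem_interior_iff_mem_nhds]
    filter_upwards [Ioo_mem_nhds (show 0 < b / 2 by linarith) (show b / 2 < b by linarith)]
      with s hs
    exact ⟨hs.1.le, lt_trans (by exact_mod_cast hs.2) hbT⟩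

lemma IsCDFSolution.continuousOn_deriv (h : IsCDFSolution T Γ) :
    ContinuousOn (fun p : ℝ × ℝ => deriv (Γ p.1) p.2) (dom T) := by
  have hud := uniqueDiffOn_dom h.pos
  have h1 : ContinuousOn (fderivWithin ℝ (two Γ) (dom T)) (dom T) :=
    ContDiffOn.continuousOn_fderivWithin h.smooth hud (by simp)
  have h2 : ContinuousOn (fun p => fderivWithin ℝ (two Γ) (dom T) p (0, 1)) (dom T) :=
    h1.clm_apply continuousOn_const
  refine h2.congr ?_
  intro p hp
  have h3 : HasFDerivWithinAt (two Γ) (fderivWithin ℝ (two Γ) (dom T) p) (dom T) p :=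
    (h.smooth.differentiableOn (by simp) p hp).hasFDerivWithinAt
  have h4 : HasDerivWithinAt (fun v : ℝ => (p.1, v)) ((0:ℝ), (1:ℝ)) univ p.2 :=
    ((hasDerivAt_const p.2 p.1).prodMk (hasDerivAt_id p.2)).hasDerivWithinAt
  have h5 : HasDerivWithinAt (two Γ ∘ fun v : ℝ => (p.1, v))
      (fderivWithin ℝ (two Γ) (dom T) p (0, 1)) univ p.2 :=
    HasFDerivWithinAt.comp_hasDerivWithinAt (t := dom T) p.2 h3 h4
      (fun v _ => ⟨hp.1, hp.2⟩)
  rw [hasDerivWithinAt_univ] at h5
  exact h5.deriv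

lemma IsCDFSolution.continuousOn_two (h : IsCDFSolution T Γ) :
    ContinuousOn (fun p : ℝ × ℝ => Γ p.1 p.2) (dom T) := h.smooth.continuousOn

lemma continuousOn_integral_of_dom {G : ℝ × ℝ → ℝ} (hG : ContinuousOn G (dom T)) {b : ℝ}
    (hb : 0 ≤ b) (hbT : (b : EReal) < T) :
    ContinuousOn (fun t => ∫ u in (0:ℝ)..1, G (t, u)) (Icc 0 b) := by
  set π : ℝ → ℝ := fun t => (projIcc 0 b hb t : ℝ) with hπ
  have hπc : Continuous π := continuous_subtype_val.comp continuous_projIcc
  have hπm : ∀ t, π t ∈ Icc 0 b := fun t => (projIcc 0 b hb t).2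
  have hc : Continuous (fun p : ℝ × ℝ => G (π p.1, p.2)) := by
    rw [← continuousOn_univ]
    refine hG.comp (t := dom T) (by fun_prop) ?_
    intro p _
    exact ⟨(hπm p.1).1, lt_of_le_of_lt (by exact_mod_cast (hπm p.1).2) hbT⟩
  have h1 : Continuous (fun t => ∫ u in (0:ℝ)..1, G (π t, u)) :=
    intervalIntegral.continuous_parametric_intervalIntegral_of_continuous'
      (f := fun t u => G (π t, u)) hc 0 1
  refine h1.continuousOn.congr ?_
  intro t ht
  have : π t = t := by
    simp only [hπ]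
    rw [projIcc_of_mem hb ht]
  simp only [this]

/-- length is nonincreasing along the curve diffusion flow -/
lemma IsCDFSolution.len_le (h : IsCDFSolution T Γ) {t : ℝ} (ht : 0 ≤ t)
    (htT : (t : EReal) < T) : len (Γ t) ≤ len (Γ 0) := by
  have hcont : ContinuousOn (fun s => len (Γ s)) (Icc 0 t) :=
    continuousOn_integral_of_dom h.continuousOn_deriv.norm ht htT
  have hanti : AntitoneOn (fun s => len (Γ s)) (Icc 0 t) := by
    apply antitoneOn_of_deriv_nonpos (convex_Icc 0 t) hcont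
    · intro s hs
      rw [interior_Icc] at hs
      exact (h.len_hasDerivAt hs htT).differentiableAt.differentiableWithinAt
    · intro s hs
      rw [interior_Icc] at hs
      rw [(h.len_hasDerivAt hs htT).deriv]
      have hsT : (s : EReal) < T := lt_of_le_of_lt (by exact_mod_cast hs.2.le) htT
      exact (h.curve s hs.1.le hsT).lenVar_vel_nonpos
  exact hanti ⟨le_refl 0, ht⟩ ⟨ht, le_refl t⟩ ht

/-- the signed area is constant along the curve diffusion flow -/
lemma IsCDFSolution.area_eq (h : IsCDFSolution T Γ) {t : ℝ} (ht : 0 ≤ t)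
    (htT : (t : EReal) < T) : area (Γ t) = area (Γ 0) := by
  have hG : ContinuousOn (fun p : ℝ × ℝ => (conj (Γ p.1 p.2) * deriv (Γ p.1) p.2).im)
      (dom T) := by
    have h1 : ContinuousOn (fun p : ℝ × ℝ => conj (Γ p.1 p.2)) (dom T) :=
      Complex.continuous_conj.comp_continuousOn h.continuousOn_two
    exact Complex.continuous_im.comp_continuousOn (h1.mul h.continuousOn_deriv)
  have hcont : ContinuousOn (fun s => area (Γ s)) (Icc 0 t) := by
    unfold area
    exact continuousOn_const.mul (continuousOn_integral_of_dom hG ht htT)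
  have hd : ∀ s ∈ interior (Icc 0 t), HasDerivAt (fun s => area (Γ s)) 0 s := by
    intro s hs
    rw [interior_Icc] at hs
    exact h.area_hasDerivAt hs htT
  have hanti : AntitoneOn (fun s => area (Γ s)) (Icc 0 t) := by
    apply antitoneOn_of_deriv_nonpos (convex_Icc 0 t) hcont
    · intro s hs
      exact (hd s hs).differentiableAt.differentiableWithinAt
    · intro s hs
      rw [(hd s hs).deriv]
  have hmono : MonotoneOn (fun s => area (Γ s)) (Icc 0 t) := by
    apply monotoneOn_of_deriv_nonneg (convex_Icc 0 t) hcont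
    · intro s hs
      exact (hd s hs).differentiableAt.differentiableWithinAt
    · intro s hs
      rw [(hd s hs).deriv]
  exact le_antisymm (hanti ⟨le_refl 0, ht⟩ ⟨ht, le_refl t⟩ ht)
    (hmono ⟨le_refl 0, ht⟩ ⟨ht, le_refl t⟩ ht)

end

/-- If a solution starting at `η` converges modulo similarity to `γ`, then the isoperimetric
quotient of `η` is at most the one of `γ`. -/
lemma quotient_le {T : EReal} {Γ : ℝ → ℝ → ℂ} {γ η : ℝ → ℂ} (hγ : IsClosedCurve γ)
    (hΓ : IsCDFSolution T Γ) (h0 : Γ 0 = η) (hc : ConvergesModSimilarity T Γ γ) :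
    |area η| * len γ ^ 2 ≤ |area γ| * len η ^ 2 := by
  obtain ⟨S, φ, hSφ, hconv⟩ := hc
  obtain ⟨K, hK, hKc⟩ := area_close hγ.sp
  have hL := hγ.len_pos
  have key : ∀ ε : ℝ, 0 < ε → ε ≤ 1 → ε ≤ len γ →
      |area η| * (len γ - ε) ^ 2 ≤ (|area γ| + K * ε) * len η ^ 2 := by
    intro ε hε hε1 hεL
    obtain ⟨t₀, ht₀, ht₀T, h0c⟩ := hconv 0 ε hε
    obtain ⟨t₁, ht₁, ht₁T, h1c⟩ := hconv 1 ε hε
    set t := max t₀ t₁ with ht
    have htn : 0 ≤ t := ht₀.trans (le_max_left _ _)
    have htT : (t : EReal) < T := by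
      rcases max_choice t₀ t₁ with h | h <;> rw [ht, h] <;> assumption
    obtain ⟨hS, hφ⟩ := hSφ t htn htT
    have hcur := hΓ.curve t htn htT
    obtain ⟨r, hr, hsp, hlen, harea⟩ := len_area_similar hcur.sp hS hφ
    set c : ℝ → ℂ := fun v => S t (Γ t (φ t v)) with hcdef
    have hc0 : ∀ u, ‖c u - γ u‖ ≤ ε := by
      intro u
      have := h0c t (le_max_left _ _) htT u
      simp only [iteratedDeriv_zero] at this
      exact this.le
    have hc1 : ∀ u, ‖deriv c u - deriv γ u‖ ≤ ε := by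
      intro u
      have := h1c t (le_max_right _ _) htT u
      rw [iteratedDeriv_one, iteratedDeriv_one] at this
      exact this.le
    have hl1 := abs_le.1 (len_close hγ.sp hsp hc1)
    have ha1 := hKc c ε hsp hε.le hε1 hc0 hc1
    have hlΓ : len (Γ t) ≤ len η := by rw [← h0]; exact hΓ.len_le htn htT
    have haΓ : area (Γ t) = area η := by rw [← h0]; exact hΓ.area_eq htn htT
    have hlΓ0 : 0 < len (Γ t) := hcur.len_pos
    have h2 : (len γ - ε) ^ 2 ≤ len c ^ 2 :=
      pow_le_pow_left₀ (by linarith) (by linarith [hl1.1]) 2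
    have h3 : |area c| ≤ |area γ| + K * ε := by
      have e1 : |area c| ≤ |area γ| + |area c - area γ| := by
        calc |area c| = |area γ + (area c - area γ)| := by ring_nf
          _ ≤ _ := abs_add_le _ _
      linarith
    calc |area η| * (len γ - ε) ^ 2 ≤ |area η| * len c ^ 2 :=
          mul_le_mul_of_nonneg_left h2 (abs_nonneg _)
      _ = |area c| * len (Γ t) ^ 2 := by rw [hlen, harea, haΓ]; ring
      _ ≤ |area c| * len η ^ 2 :=
          mul_le_mul_of_nonneg_left (pow_le_pow_left₀ hlΓ0.le hlΓ 2) (abs_nonneg _)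
      _ ≤ _ := mul_le_mul_of_nonneg_right h3 (sq_nonneg _)
  have hlim1 : Tendsto (fun ε : ℝ => |area η| * (len γ - ε) ^ 2) (𝓝[>] 0)
      (𝓝 (|area η| * (len γ - 0) ^ 2)) := by
    apply tendsto_nhdsWithin_of_tendsto_nhds
    exact Continuous.tendsto (by fun_prop) 0
  have hlim2 : Tendsto (fun ε : ℝ => (|area γ| + K * ε) * len η ^ 2) (𝓝[>] 0)
      (𝓝 ((|area γ| + K * 0) * len η ^ 2)) := by
    apply tendsto_nhdsWithin_of_tendsto_nhds
    exact Continuous.tendsto (by fun_prop) 0
  have hle := le_of_tendsto_of_tendsto hlim1 hlim2 (by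
    have hmem : Ioc 0 (min 1 (len γ)) ∈ 𝓝[>] (0:ℝ) := Ioc_mem_nhdsGT (by positivity)
    filter_upwards [hmem] with ε hε
    exact key ε hε.1 (hε.2.trans (min_le_left _ _)) (hε.2.trans (min_le_right _ _)))
  simpa using hle

/-- Every dynamically stable curve of the curve diffusion flow is a once covered circle. -/
theorem stable_imp_circle {γ : ℝ → ℂ} (hγ : IsClosedCurve γ) (hs : DynamicallyStableCDF γ) :
    IsOnceCoveredCircle γ := by
  obtain ⟨k, ε, hε, h⟩ := hs
  refine onceCovered_of_locMax hγ hε (k := k) ?_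
  intro η hη hcl
  obtain ⟨T, Γ, hmax, hconv⟩ := h η hη hcl
  exact quotient_le hγ hmax.1 hmax.2.1 hconv

end Pool.Agent.MP7c1622
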