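import Pool.Agent.Lib.MP_7c1622_gt.Basic

set_option autoImplicit false

noncomputable section

namespace Pool.Agent.MP7c1622

open Set Filter Topology ComplexConjugate
open scoped ContDiff

lemma integral_deriv_periodic {f : ℝ → ℝ} (h : SP f) : ∫ u in (0:ℝ)..1, deriv f u = 0 := by
  rw [intervalIntegral.integral_deriv_eq_sub]
  · have := h.per 0
    rw [zero_add] at this
    rw [this, sub_self]
  · intro x _
    exact h.differentiable x
  · exact h.deriv.continuous.intervalIntegrable _ _

lemma SP.conj_mul_im {f g : ℝ → ℂ} (hf : SP f) (hg : SP g) :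
    SP (fun u => (conj (f u) * g u).im) := by
  refine ⟨?_, fun u => by simp only [hf.per, hg.per]⟩
  have h1 : ContDiff ℝ ∞ (fun u => conj (f u)) :=
    Complex.conjCLE.contDiff.comp hf.smooth
  exact Complex.imCLM.contDiff.comp (h1.mul hg.smooth)

lemma SP.conj_mul_re {f g : ℝ → ℂ} (hf : SP f) (hg : SP g) :
    SP (fun u => (conj (f u) * g u).re) := by
  refine ⟨?_, fun u => by simp only [hf.per, hg.per]⟩
  have h1 : ContDiff ℝ ∞ (fun u => conj (f u)) :=
    Complex.conjCLE.contDiff.comp hf.smooth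
  exact Complex.reCLM.contDiff.comp (h1.mul hg.smooth)

lemma hasDerivAt_conj_mul {f g : ℝ → ℂ} {f' g' : ℂ} {u : ℝ} (hf : HasDerivAt f f' u)
    (hg : HasDerivAt g g' u) :
    HasDerivAt (fun u => conj (f u) * g u) (conj f' * g u + conj (f u) * g') u := by
  have h1 : HasDerivAt (fun u => conj (f u)) (conj f') u :=
    Complex.conjCLE.hasFDerivAt.comp_hasDerivAt u hf
  exact h1.mul hg

lemma hasDerivAt_conj_mul_im {f g : ℝ → ℂ} {f' g' : ℂ} {u : ℝ} (hf : HasDerivAt f f' u)
    (hg : HasDerivAt g g' u) :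
    HasDerivAt (fun u => (conj (f u) * g u).im) ((conj f' * g u).im + (conj (f u) * g').im) u := by
  have := Complex.imCLM.hasFDerivAt.comp_hasDerivAt u (hasDerivAt_conj_mul hf hg)
  exact this

lemma hasDerivAt_conj_mul_re {f g : ℝ → ℂ} {f' g' : ℂ} {u : ℝ} (hf : HasDerivAt f f' u)
    (hg : HasDerivAt g g' u) :
    HasDerivAt (fun u => (conj (f u) * g u).re) ((conj f' * g u).re + (conj (f u) * g').re) u := by
  have := Complex.reCLM.hasFDerivAt.comp_hasDerivAt u (hasDerivAt_conj_mul hf hg)
  exact this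

/-- integration by parts, imaginary part -/
lemma parts_im {f g : ℝ → ℂ} (hf : SP f) (hg : SP g) :
    ∫ u in (0:ℝ)..1, (conj (f u) * deriv g u).im =
      - ∫ u in (0:ℝ)..1, (conj (deriv f u) * g u).im := by
  have h0 := integral_deriv_periodic (hf.conj_mul_im hg)
  have h1 : deriv (fun u => (conj (f u) * g u).im) =
      fun u => (conj (deriv f u) * g u).im + (conj (f u) * deriv g u).im :=
    funext fun u => (hasDerivAt_conj_mul_im (hf.hasDerivAt u) (hg.hasDerivAt u)).deriv
  rw [h1, intervalIntegral.integral_add] at h0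
  · linarith
  · exact (hf.deriv.conj_mul_im hg).continuous.intervalIntegrable _ _
  · exact (hf.conj_mul_im hg.deriv).continuous.intervalIntegrable _ _

/-- integration by parts, real part -/
lemma parts_re {f g : ℝ → ℂ} (hf : SP f) (hg : SP g) :
    ∫ u in (0:ℝ)..1, (conj (f u) * deriv g u).re =
      - ∫ u in (0:ℝ)..1, (conj (deriv f u) * g u).re := by
  have h0 := integral_deriv_periodic (hf.conj_mul_re hg)
  have h1 : deriv (fun u => (conj (f u) * g u).re) =
      fun u => (conj (deriv f u) * g u).re + (conj (f u) * deriv g u).re :=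
    funext fun u => (hasDerivAt_conj_mul_re (hf.hasDerivAt u) (hg.hasDerivAt u)).deriv
  rw [h1, intervalIntegral.integral_add] at h0
  · linarith
  · exact (hf.deriv.conj_mul_re hg).continuous.intervalIntegrable _ _
  · exact (hf.conj_mul_re hg.deriv).continuous.intervalIntegrable _ _

/-- first variation of area -/
def areaVar (γ w : ℝ → ℂ) : ℝ := ∫ u in (0:ℝ)..1, (conj (w u) * deriv γ u).im

/-- first variation of length -/
def lenVar (γ w : ℝ → ℂ) : ℝ := ∫ u in (0:ℝ)..1, (conj (tangent γ u) * deriv w u).re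

lemma area_add_smul {γ w : ℝ → ℂ} (h : SP γ) (hw : SP w) (δ : ℝ) :
    area (fun u => γ u + δ • w u) = area γ + δ * areaVar γ w + δ ^ 2 * area w := by
  unfold area areaVar
  have e1 : ∀ u, (conj (γ u + δ • w u) * deriv (fun u => γ u + δ • w u) u).im =
      (conj (γ u) * deriv γ u).im + (δ * (conj (γ u) * deriv w u).im +
        (δ * (conj (w u) * deriv γ u).im + δ ^ 2 * (conj (w u) * deriv w u).im)) := by
    intro u
    rw [deriv_add_smul h hw]
    simp only [map_add, Complex.real_smul, map_mul, Complex.conj_ofReal, Complex.mul_im,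
      Complex.add_re, Complex.add_im, Complex.mul_re, Complex.ofReal_re, Complex.ofReal_im,
      Complex.conj_re, Complex.conj_im]
    ring
  simp_rw [e1]
  have i1 : IntervalIntegrable (fun u => (conj (γ u) * deriv γ u).im) MeasureTheory.volume 0 1 :=
    (h.conj_mul_im h.deriv).continuous.intervalIntegrable _ _
  have i2 : IntervalIntegrable (fun u => δ * (conj (γ u) * deriv w u).im)
      MeasureTheory.volume 0 1 :=
    ((h.conj_mul_im hw.deriv).continuous.const_mul δ).intervalIntegrable _ _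
  have i3 : IntervalIntegrable (fun u => δ * (conj (w u) * deriv γ u).im)
      MeasureTheory.volume 0 1 :=
    ((hw.conj_mul_im h.deriv).continuous.const_mul δ).intervalIntegrable _ _
  have i4 : IntervalIntegrable (fun u => δ ^ 2 * (conj (w u) * deriv w u).im)
      MeasureTheory.volume 0 1 :=
    ((hw.conj_mul_im hw.deriv).continuous.const_mul (δ ^ 2)).intervalIntegrable _ _
  rw [intervalIntegral.integral_add i1 (i2.add (i3.add i4)),
    intervalIntegral.integral_add i2 (i3.add i4), intervalIntegral.integral_add i3 i4,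
    intervalIntegral.integral_const_mul, intervalIntegral.integral_const_mul,
    intervalIntegral.integral_const_mul]
  have h2 : ∫ u in (0:ℝ)..1, (conj (γ u) * deriv w u).im =
      ∫ u in (0:ℝ)..1, (conj (w u) * deriv γ u).im := by
    rw [parts_im h hw, ← intervalIntegral.integral_neg]
    congr 1
    funext u
    simp only [Complex.mul_im, Complex.conj_re, Complex.conj_im]
    ring
  rw [h2]
  ring

lemma IsClosedCurve.len_add_smul_le {γ w : ℝ → ℂ} (h : IsClosedCurve γ) (hw : SP w) :
    ∃ C : ℝ, 0 ≤ C ∧ ∀ δ : ℝ, len (fun u => γ u + δ • w u) ≤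
      len γ + δ * lenVar γ w + δ ^ 2 * C := by
  refine ⟨∫ u in (0:ℝ)..1, ‖deriv w u‖ ^ 2 / (2 * ‖deriv γ u‖), ?_, fun δ => ?_⟩
  · apply intervalIntegral.integral_nonneg (by norm_num)
    intro u _
    positivity
  · have hlc : Continuous (fun u => (conj (tangent γ u) * deriv w u).re) :=
      (h.tangent_sp.conj_mul_re hw.deriv).continuous
    have hcc : Continuous (fun u => ‖deriv w u‖ ^ 2 / (2 * ‖deriv γ u‖)) := by
      refine Continuous.div ?_ ?_ ?_
      · exact hw.deriv.continuous.norm.pow 2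
      · exact h.speed_smooth.continuous.const_mul 2
      · intro u
        have := h.speed_pos u
        positivity
    unfold len lenVar
    have i1 : IntervalIntegrable (fun u => ‖deriv γ u‖ +
        δ * (conj (tangent γ u) * deriv w u).re) MeasureTheory.volume 0 1 :=
      (h.speed_smooth.continuous.add (hlc.const_mul δ)).intervalIntegrable _ _
    have i2 : IntervalIntegrable (fun u => δ ^ 2 * (‖deriv w u‖ ^ 2 / (2 * ‖deriv γ u‖)))
        MeasureTheory.volume 0 1 := (hcc.const_mul (δ ^ 2)).intervalIntegrable _ _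
    rw [← intervalIntegral.integral_const_mul, ← intervalIntegral.integral_const_mul,
      ← intervalIntegral.integral_add (h.speed_smooth.continuous.intervalIntegrable _ _)
        ((hlc.const_mul δ).intervalIntegrable _ _),
      ← intervalIntegral.integral_add i1 i2]
    apply intervalIntegral.integral_mono_on (by norm_num)
    · exact (h.sp.add_smul hw δ).deriv.continuous.norm.intervalIntegrable _ _
    · exact i1.add i2
    · intro u _
      rw [deriv_add_smul h.sp hw]
      set a := ‖deriv γ u‖ with ha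
      have ha0 : 0 < a := h.speed_pos u
      have htan : conj (tangent γ u) = ((a⁻¹ : ℝ) : ℂ) * conj (deriv γ u) := by
        unfold tangent dS
        rw [Complex.real_smul, map_mul, Complex.conj_ofReal]
      have hre : (conj (tangent γ u) * deriv w u).re =
          a⁻¹ * (conj (deriv γ u) * deriv w u).re := by
        rw [htan, mul_assoc, Complex.re_ofReal_mul]
      rw [hre]
      set R := (conj (deriv γ u) * deriv w u).re with hR
      have hsq : ‖deriv γ u + δ • deriv w u‖ ^ 2 = a ^ 2 + 2 * δ * R + δ ^ 2 * ‖deriv w u‖ ^ 2 := by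
        rw [ha, hR, ← Complex.normSq_eq_norm_sq, ← Complex.normSq_eq_norm_sq,
          ← Complex.normSq_eq_norm_sq]
        simp only [Complex.normSq_apply, Complex.real_smul, Complex.add_re, Complex.add_im,
          Complex.mul_re, Complex.mul_im, Complex.ofReal_re, Complex.ofReal_im, Complex.conj_re,
          Complex.conj_im]
        ring
      set x := 2 * δ * R + δ ^ 2 * ‖deriv w u‖ ^ 2 with hx
      have hrhs : a + δ * (a⁻¹ * R) + δ ^ 2 * (‖deriv w u‖ ^ 2 / (2 * a)) = a + x / (2 * a) := by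
        rw [hx]; field_simp; ring
      rw [hrhs]
      have hnn : 0 ≤ a ^ 2 + x := by
        have := sq_nonneg ‖deriv γ u + δ • deriv w u‖
        rw [hsq] at this
        linarith
      have hpos : 0 ≤ a + x / (2 * a) := by
        have : a + x / (2 * a) = (a ^ 2 + (a ^ 2 + x)) / (2 * a) := by field_simp; ring
        rw [this]; positivity
      apply le_of_sq_le_sq _ hpos
      rw [hsq]
      have : (a + x / (2 * a)) ^ 2 = a ^ 2 + x + (x / (2 * a)) ^ 2 := by field_simp; ring
      rw [this]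
      nlinarith [sq_nonneg (x / (2 * a))]

/-- the hypothesis of local maximality of the isoperimetric quotient -/
def LocMax (k : ℕ) (ε : ℝ) (γ : ℝ → ℂ) : Prop :=
  ∀ η : ℝ → ℂ, IsClosedCurve η → IsClose k ε γ η →
    |area η| * len γ ^ 2 ≤ |area γ| * len η ^ 2

/-- the unit circle -/
def unitCircle (u : ℝ) : ℂ := Complex.exp (2 * Real.pi * Complex.I * u)

lemma unitCircle_hasDerivAt (u : ℝ) :
    HasDerivAt unitCircle (2 * Real.pi * Complex.I * unitCircle u) u := by
  unfold unitCircle
  have h1 : HasDerivAt (fun u : ℝ => 2 * Real.pi * Complex.I * (u : ℂ))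
      (2 * Real.pi * Complex.I * 1) u :=
    (Complex.ofRealCLM.hasDerivAt (x := u)).const_mul _
  have h2 := h1.cexp
  convert h2 using 1
  ring

lemma unitCircle_sp : SP unitCircle := by
  refine ⟨?_, fun u => ?_⟩
  · unfold unitCircle
    exact (contDiff_const.mul Complex.ofRealCLM.contDiff).cexp
  · unfold unitCircle
    rw [Complex.ofReal_add, mul_add, Complex.exp_add]
    simp [Complex.exp_two_pi_mul_I]

lemma area_unitCircle : area unitCircle = Real.pi := by
  unfold area
  have : ∀ u, (conj (unitCircle u) * deriv unitCircle u).im = 2 * Real.pi := by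
    intro u
    rw [(unitCircle_hasDerivAt u).deriv]
    have h1 : conj (unitCircle u) * (2 * Real.pi * Complex.I * unitCircle u) =
        2 * Real.pi * Complex.I * ((Complex.normSq (unitCircle u) : ℝ) : ℂ) := by
      rw [← Complex.mul_conj]; ring
    have h2 : Complex.normSq (unitCircle u) = 1 := by
      rw [Complex.normSq_eq_norm_sq]
      unfold unitCircle
      have : 2 * (Real.pi : ℂ) * Complex.I * u = ((2 * Real.pi * u : ℝ) : ℂ) * Complex.I := by
        push_cast; ring
      rw [this, Complex.norm_exp_ofReal_mul_I]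
      norm_num
    rw [h1, h2]
    simp
  simp_rw [this]
  simp

lemma area_ne_zero {γ : ℝ → ℂ} (h : IsClosedCurve γ) {k : ℕ} {ε : ℝ} (hε : 0 < ε)
    (hmax : LocMax k ε γ) : area γ ≠ 0 := by
  intro h0
  obtain ⟨δ₀, hδ₀, hp⟩ := perturb h unitCircle_sp k hε
  have key : ∀ δ : ℝ, |δ| < δ₀ → δ * areaVar γ unitCircle + δ ^ 2 * Real.pi = 0 := by
    intro δ hδ
    obtain ⟨h1, h2⟩ := hp δ hδ
    have h3 := hmax _ h1 h2
    rw [h0, abs_zero, zero_mul, area_add_smul h.sp unitCircle_sp, h0, area_unitCircle,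
      zero_add] at h3
    have hl : 0 < len γ ^ 2 := by have := h.len_pos; positivity
    have h4 : |δ * areaVar γ unitCircle + δ ^ 2 * Real.pi| ≤ 0 := by
      by_contra hc
      push Not at hc
      have := mul_pos hc hl
      linarith
    exact abs_eq_zero.1 (le_antisymm h4 (abs_nonneg _))
  have k1 := key (δ₀ / 2) (by rw [abs_of_pos (by positivity)]; linarith)
  have k2 := key (δ₀ / 4) (by rw [abs_of_pos (by positivity)]; linarith)
  have hpi := Real.pi_pos
  have : δ₀ ^ 2 * Real.pi = 0 := by nlinarith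
  have h5 : 0 < δ₀ ^ 2 * Real.pi := by positivity
  linarith

lemma eq_zero_of_small {q K δ₁ : ℝ} (hδ₁ : 0 < δ₁)
    (h : ∀ δ : ℝ, |δ| < δ₁ → δ * q ≤ δ ^ 2 * K) : q = 0 := by
  by_contra hq
  have hq' : 0 < |q| := abs_pos.2 hq
  have hK : 0 < |K| + 1 := by positivity
  set t := min (δ₁ / 2) (|q| / (2 * (|K| + 1))) with ht
  have ht0 : 0 < t := by rw [ht]; positivity
  have ht1 : t < δ₁ := by
    have := min_le_left (δ₁ / 2) (|q| / (2 * (|K| + 1)))
    rw [← ht] at this
    linarith
  have ht2 : t * (2 * (|K| + 1)) ≤ |q| := by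
    have := min_le_right (δ₁ / 2) (|q| / (2 * (|K| + 1)))
    rw [← ht] at this
    rwa [le_div_iff₀ (by positivity)] at this
  have hlt : t * |K| < |q| := by nlinarith [abs_nonneg K]
  rcases lt_or_gt_of_ne hq with hneg | hpos
  · have h1 := h (-t) (by rw [abs_neg, abs_of_pos ht0]; exact ht1)
    rw [abs_of_neg hneg] at hlt
    have h2 : t ^ 2 * K ≤ t ^ 2 * |K| := mul_le_mul_of_nonneg_left (le_abs_self K) (sq_nonneg t)
    nlinarith
  · have h1 := h t (by rw [abs_of_pos ht0]; exact ht1)
    rw [abs_of_pos hpos] at hlt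
    have h2 : t ^ 2 * K ≤ t ^ 2 * |K| := mul_le_mul_of_nonneg_left (le_abs_self K) (sq_nonneg t)
    nlinarith

lemma first_variation {γ w : ℝ → ℂ} (h : IsClosedCurve γ) (hw : SP w) {k : ℕ} {ε : ℝ}
    (hε : 0 < ε) (hmax : LocMax k ε γ) :
    len γ * areaVar γ w = 2 * area γ * lenVar γ w := by
  have ha := area_ne_zero h hε hmax
  obtain ⟨δ₀, hδ₀, hp⟩ := perturb h hw k hε
  obtain ⟨C, hC, hlen⟩ := h.len_add_smul_le hw
  set L := len γ with hL
  have hLpos : 0 < L := h.len_pos
  set a := area γ with hadef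
  set B := areaVar γ w
  set V := lenVar γ w
  set D := area w
  obtain ⟨σ, hσ1, hσa⟩ : ∃ σ : ℝ, σ ^ 2 = 1 ∧ σ * a = |a| := by
    rcases lt_or_gt_of_ne ha with hn | hp'
    · exact ⟨-1, by norm_num, by rw [abs_of_neg hn]; ring⟩
    · exact ⟨1, by norm_num, by rw [abs_of_pos hp']; ring⟩
  have hσabs : |σ| = 1 := by
    have h0 : |σ| ^ 2 = 1 := by rw [sq_abs]; exact hσ1
    nlinarith [abs_nonneg σ]
  have hq : σ * B * L ^ 2 - 2 * |a| * L * V = 0 := by
    apply eq_zero_of_small (δ₁ := min δ₀ 1)
      (K := |a| * (V ^ 2 + 2 * L * C + 2 * |V| * C + C ^ 2) + |D| * L ^ 2) (by positivity)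
    intro δ hδ
    have hδ1 : |δ| < 1 := hδ.trans_le (min_le_right _ _)
    obtain ⟨h1, h2⟩ := hp δ (hδ.trans_le (min_le_left _ _))
    have h3 := hmax _ h1 h2
    rw [area_add_smul h.sp hw] at h3
    change |a + δ * B + δ ^ 2 * D| * L ^ 2 ≤ |a| * _ at h3
    have h4 := hlen δ
    set l := len (fun u => γ u + δ • w u) with hl
    have hlpos : 0 < l := h1.len_pos
    change l ≤ L + δ * V + δ ^ 2 * C at h4
    have h5 : l ^ 2 ≤ (L + δ * V + δ ^ 2 * C) ^ 2 := pow_le_pow_left₀ hlpos.le h4 2
    have h6 : σ * (a + δ * B + δ ^ 2 * D) ≤ |a + δ * B + δ ^ 2 * D| := by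
      calc σ * (a + δ * B + δ ^ 2 * D) ≤ |σ * (a + δ * B + δ ^ 2 * D)| := le_abs_self _
        _ = |a + δ * B + δ ^ 2 * D| := by rw [abs_mul, hσabs, one_mul]
    have h7 : σ * (a + δ * B + δ ^ 2 * D) * L ^ 2 ≤ |a| * (L + δ * V + δ ^ 2 * C) ^ 2 :=
      (mul_le_mul_of_nonneg_right h6 (sq_nonneg L)).trans
        (h3.trans (mul_le_mul_of_nonneg_left h5 (abs_nonneg a)))
    have h8 : σ * (a + δ * B + δ ^ 2 * D) = |a| + δ * (σ * B) + δ ^ 2 * (σ * D) := by
      rw [← hσa]; ring
    rw [h8] at h7
    have h9 : -(δ ^ 2 * (σ * D)) ≤ δ ^ 2 * |D| := by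
      have : -(σ * D) ≤ |D| := by
        calc -(σ * D) ≤ |σ * D| := neg_le_abs _
          _ = |D| := by rw [abs_mul, hσabs, one_mul]
      nlinarith [sq_nonneg δ]
    have h10 : δ ^ 3 * (V * C) ≤ δ ^ 2 * (|V| * C) := by
      have e1 : δ * V ≤ |V| := by
        calc δ * V ≤ |δ * V| := le_abs_self _
          _ = |δ| * |V| := abs_mul _ _
          _ ≤ 1 * |V| := mul_le_mul_of_nonneg_right hδ1.le (abs_nonneg _)
          _ = |V| := one_mul _
      have e2 : δ ^ 3 * (V * C) = δ ^ 2 * (δ * V * C) := by ring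
      rw [e2]
      exact mul_le_mul_of_nonneg_left (mul_le_mul_of_nonneg_right e1 hC) (sq_nonneg δ)
    have h11 : δ ^ 4 * C ^ 2 ≤ δ ^ 2 * C ^ 2 := by
      have e1 : δ ^ 2 ≤ 1 := by
        rw [← sq_abs]; nlinarith [abs_nonneg δ]
      have e2 : δ ^ 4 * C ^ 2 = δ ^ 2 * (δ ^ 2 * C ^ 2) := by ring
      rw [e2]
      have e3 : δ ^ 2 * C ^ 2 ≤ 1 * C ^ 2 := mul_le_mul_of_nonneg_right e1 (sq_nonneg C)
      rw [one_mul] at e3
      exact mul_le_mul_of_nonneg_left e3 (sq_nonneg δ)
    have habs : 0 ≤ |a| := abs_nonneg a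
    have h12 : |a| * (L + δ * V + δ ^ 2 * C) ^ 2 =
        |a| * L ^ 2 + δ * (2 * |a| * L * V) + |a| * (δ ^ 2 * (V ^ 2 + 2 * L * C)) +
          2 * (|a| * (δ ^ 3 * (V * C))) + |a| * (δ ^ 4 * C ^ 2) := by ring
    have h13 := mul_le_mul_of_nonneg_left h10 habs
    have h14 := mul_le_mul_of_nonneg_left h11 habs
    have h15 := mul_le_mul_of_nonneg_right h9 (sq_nonneg L)
    rw [h12] at h7
    nlinarith [h7, h13, h14, h15]
  have h2 : σ * (σ * B * L ^ 2 - 2 * |a| * L * V) = 0 := by rw [hq, mul_zero]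
  rw [← hσa] at h2
  have h3 : L * (L * B - 2 * a * V) = 0 := by
    have : σ * (σ * B * L ^ 2 - 2 * (σ * a) * L * V) = σ ^ 2 * (L * (L * B - 2 * a * V)) := by ring
    rw [this, hσ1, one_mul] at h2
    exact h2
  rcases mul_eq_zero.1 h3 with h4 | h4
  · exact absurd h4 hLpos.ne'
  · linarith

/-- Euler-Lagrange equation: `2 A τ' = L i γ'`. -/
lemma euler_lagrange {γ : ℝ → ℂ} (h : IsClosedCurve γ) {k : ℕ} {ε : ℝ}
    (hε : 0 < ε) (hmax : LocMax k ε γ) (u : ℝ) :
    ((2 * area γ : ℝ) : ℂ) * deriv (tangent γ) u =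
      ((len γ : ℝ) : ℂ) * (Complex.I * deriv γ u) := by
  set w : ℝ → ℂ := fun u => ((2 * area γ : ℝ) : ℂ) * deriv (tangent γ) u -
      ((len γ : ℝ) : ℂ) * (Complex.I * deriv γ u) with hwdef
  have hw : SP w := by
    refine ⟨?_, fun u => ?_⟩
    · exact (contDiff_const.mul h.tangent_sp.deriv.smooth).sub
        (contDiff_const.mul (contDiff_const.mul h.sp.deriv.smooth))
    · simp only [hwdef, h.tangent_sp.deriv.per, h.sp.deriv.per]
  have h1 := first_variation h hw hε hmax
  have h2 : lenVar γ w = - ∫ u in (0:ℝ)..1, (conj (deriv (tangent γ) u) * w u).re :=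
    parts_re h.tangent_sp hw
  unfold areaVar at h1
  rw [h2] at h1
  have h3 : ∫ u in (0:ℝ)..1, (conj (w u) * w u).re = 0 := by
    have e : ∀ u, (conj (w u) * w u).re =
        (2 * area γ) * (conj (deriv (tangent γ) u) * w u).re +
          len γ * (conj (w u) * deriv γ u).im := by
      intro u
      have e1 : (conj (w u) * w u).re = (conj (w u) * (((2 * area γ : ℝ) : ℂ) *
          deriv (tangent γ) u - ((len γ : ℝ) : ℂ) * (Complex.I * deriv γ u))).re := rfl
      rw [e1]
      simp only [Complex.mul_re, Complex.mul_im, Complex.sub_re, Complex.sub_im,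
        Complex.ofReal_re, Complex.ofReal_im, Complex.conj_re, Complex.conj_im, Complex.I_re,
        Complex.I_im]
      ring
    simp_rw [e]
    rw [intervalIntegral.integral_add, intervalIntegral.integral_const_mul,
      intervalIntegral.integral_const_mul]
    · linarith
    · exact ((h.tangent_sp.deriv.conj_mul_re hw).continuous.const_mul _).intervalIntegrable _ _
    · exact ((hw.conj_mul_im h.sp.deriv).continuous.const_mul _).intervalIntegrable _ _
  have hnn : ∀ u, 0 ≤ (conj (w u) * w u).re := by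
    intro u
    simp only [Complex.mul_re, Complex.conj_re, Complex.conj_im]
    nlinarith [sq_nonneg (w u).re, sq_nonneg (w u).im]
  have hw0 : ∀ v ∈ Icc (0:ℝ) 1, w v = 0 := by
    intro v hv
    by_contra hne
    have hpos : 0 < (conj (w v) * w v).re := by
      have : (conj (w v) * w v).re = Complex.normSq (w v) := by
        simp only [Complex.mul_re, Complex.conj_re, Complex.conj_im, Complex.normSq_apply]
        ring
      rw [this]
      exact Complex.normSq_pos.2 hne
    have := intervalIntegral.integral_pos (a := (0:ℝ)) (b := 1) (by norm_num)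
      (hw.conj_mul_re hw).continuous.continuousOn (fun x _ => hnn x) ⟨v, hv, hpos⟩
    linarith
  have hper : Function.Periodic w 1 := hw.per
  obtain ⟨v, hv, hwv⟩ := hper.exists_mem_Ico₀ (by norm_num) u
  have : w u = 0 := by rw [hwv]; exact hw0 v ⟨hv.1, hv.2.le⟩
  exact sub_eq_zero.1 this

end Pool.Agent.MP7c1622
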